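import Pool.Agent.H16.Simp.Defs

/-!
# The law of the sum of two independent uniform unit vectors is absolutely continuous
-/

open MeasureTheory Measure Metric Filter Topology
open scoped RealInnerProductSpace

set_option autoImplicit false
set_option linter.unusedSectionVars false

namespace Pool.Agent.H16.Simp

variable {d : ℕ}

theorem acx_cont_left (v : E d) : Continuous (fun R : Rot d => act R v) :=
  continuous_act.comp (continuous_id.prodMk continuous_const)

theorem acx_cont_right (R : Rot d) : Continuous (fun v : E d => act R v) :=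
  continuous_act.comp (continuous_const.prodMk continuous_id)

theorem acx_mp_act (R : Rot d) :
    MeasurePreserving (fun v : E d => act R v) volume volume :=
  (toIso R).measurePreserving

theorem acx_ae_ae_act {S : Set (E d)} (hS : MeasurableSet S) (h0 : volume S = 0) :
    ∀ᵐ x ∂(volume : Measure (E d)), ∀ᵐ R ∂(rotHaar d), act R x ∉ S := by
  have hm : MeasurableSet {p : E d × Rot d | act p.2 p.1 ∉ S} := by
    have hc : Continuous (fun p : E d × Rot d => act p.2 p.1) :=
      continuous_act.comp (continuous_snd.prodMk continuous_fst)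
    exact (hc.measurable hS).compl
  rw [Measure.ae_ae_comm (p := fun (x : E d) (R : Rot d) => act R x ∉ S) hm]
  refine Filter.Eventually.of_forall fun R => ?_
  have h1 : ∀ᵐ x ∂(volume : Measure (E d)), x ∉ S := measure_eq_zero_iff_ae_notMem.mp h0
  exact (acx_mp_act R).quasiMeasurePreserving.ae h1

theorem acx_polar (hd : 1 ≤ d) {M : Set ℝ}
    (h0 : volume {x : E d | ‖x‖ ∈ M} = 0) : volume (M ∩ Set.Ioi 0) = 0 := by
  have : Nonempty (Fin d) := ⟨⟨0, hd⟩⟩
  have : Nontrivial (E d) := by infer_instance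
  let f : ℝ → ℝ := M.indicator 1
  have hf : f = M.indicator 1 := rfl
  have hf0 : ∀ s, 0 ≤ f s := fun s => Set.indicator_nonneg (fun _ _ => zero_le_one) s
  have hae : (fun x : E d => f ‖x‖) =ᵐ[volume] 0 := by
    filter_upwards [measure_eq_zero_iff_ae_notMem.mp h0] with x hx
    exact Set.indicator_of_notMem hx _
  have hint : Integrable (fun x : E d => f ‖x‖) volume :=
    (integrable_zero _ _ _).congr hae.symm
  have h1 := (integrable_fun_norm_addHaar (volume : Measure (E d)) (f := f)).mp hint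
  have h2 := integral_fun_norm_addHaar (volume : Measure (E d)) f
  rw [integral_congr_ae hae] at h2
  have hdim : Module.finrank ℝ (E d) = d := by simp
  have hball : (0 : ℝ) < (volume : Measure (E d)).real (ball 0 1) := by
    rw [Measure.real]
    exact ENNReal.toReal_pos (measure_ball_pos _ _ one_pos).ne' measure_ball_lt_top.ne
  have h3 : ∫ y in Set.Ioi (0 : ℝ), y ^ (Module.finrank ℝ (E d) - 1) • f y = 0 := by
    simp only [Pi.zero_apply, integral_zero] at h2
    have h4 := h2.symm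
    rw [smul_eq_zero] at h4
    rcases h4 with h4 | h4
    · rw [hdim] at h4; omega
    · rw [smul_eq_zero] at h4
      rcases h4 with h4 | h4
      · exact absurd h4 hball.ne'
      · exact h4
  have h5 : (fun y : ℝ => y ^ (Module.finrank ℝ (E d) - 1) • f y)
      =ᵐ[volume.restrict (Set.Ioi 0)] 0 := by
    refine (setIntegral_eq_zero_iff_of_nonneg_ae ?_ h1).mp h3
    filter_upwards [ae_restrict_mem measurableSet_Ioi] with y hy
    have hy' : (0 : ℝ) < y := hy
    have := hf0 y
    simp only [Pi.zero_apply, smul_eq_mul]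
    positivity
  rw [← Measure.restrict_apply' measurableSet_Ioi]
  rw [measure_eq_zero_iff_ae_notMem]
  filter_upwards [h5, ae_restrict_mem measurableSet_Ioi] with y hy hy0 hyM
  have hy' : (0 : ℝ) < y := hy0
  have h6 : f y = 1 := Set.indicator_of_mem hyM _
  rw [h6] at hy
  simp only [Pi.zero_apply, smul_eq_mul, mul_one] at hy
  exact absurd hy (pow_pos hy' _).ne'

theorem acx_line {M : Set ℝ} (hM0 : volume (M ∩ Set.Ioi 0) = 0) (e y : E d) (he : ‖e‖ = 1)
    (hy : ⟪e, y⟫ ^ 2 < ‖y‖ ^ 2) :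
    ∀ᵐ τ : ℝ, ‖e + ‖y + τ • e‖⁻¹ • (y + τ • e)‖ ∉ M := by
  set a : ℝ := ⟪e, y⟫ with ha
  set κ : ℝ := √(‖y‖ ^ 2 - a ^ 2) with hκ
  have hκ0 : 0 < κ := Real.sqrt_pos.mpr (by linarith)
  have hκ2 : κ ^ 2 = ‖y‖ ^ 2 - a ^ 2 := Real.sq_sqrt (by linarith)
  let h : ℝ → ℝ := fun s => κ * (s ^ 2 / 2 - 1) / √(1 - (s ^ 2 / 2 - 1) ^ 2) - a
  have hdiff : DifferentiableOn ℝ h (M ∩ Set.Ioo 0 2) := by
    intro s hs
    have hs1 : 0 < s := hs.2.1
    have hs2 : s < 2 := hs.2.2
    have hpos : 0 < 1 - (s ^ 2 / 2 - 1) ^ 2 := by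
      have e1 : 1 - (s ^ 2 / 2 - 1) ^ 2 = (s ^ 2 / 2) * ((2 - s) * (2 + s) / 2) := by ring
      rw [e1]
      have : 0 < 2 - s := by linarith
      positivity
    apply DifferentiableAt.differentiableWithinAt
    have d1 : DifferentiableAt ℝ (fun s : ℝ => 1 - (s ^ 2 / 2 - 1) ^ 2) s := by fun_prop
    have d2 : DifferentiableAt ℝ (fun s : ℝ => √(1 - (s ^ 2 / 2 - 1) ^ 2)) s :=
      d1.sqrt hpos.ne'
    have d3 : DifferentiableAt ℝ (fun s : ℝ => κ * (s ^ 2 / 2 - 1)) s := by fun_prop
    exact (d3.div d2 (Real.sqrt_pos.mpr hpos).ne').sub_const a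
  have hnull : volume (M ∩ Set.Ioo (0 : ℝ) 2) = 0 :=
    measure_mono_null (Set.inter_subset_inter_right M Set.Ioo_subset_Ioi_self) hM0
  have himg : volume (h '' (M ∩ Set.Ioo 0 2)) = 0 :=
    addHaar_image_eq_zero_of_differentiableOn_of_addHaar_eq_zero volume hdiff hnull
  rw [measure_eq_zero_iff_ae_notMem] at himg
  filter_upwards [himg] with τ hτ hmem
  apply hτ
  set x : E d := y + τ • e with hx
  have hxe : ⟪e, x⟫ = a + τ := by
    rw [hx, inner_add_right, inner_smul_right, real_inner_self_eq_norm_sq, he, ← ha]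
    ring
  have hN2 : ‖x‖ ^ 2 = (a + τ) ^ 2 + κ ^ 2 := by
    rw [hx, norm_add_sq_real, norm_smul, he, inner_smul_right, real_inner_comm, ← ha, hκ2,
      Real.norm_eq_abs, mul_one, sq_abs]
    ring
  have hNpos : 0 < ‖x‖ := by
    rcases (norm_nonneg x).lt_or_eq with h1 | h1
    · exact h1
    · exfalso
      rw [← h1] at hN2
      nlinarith [sq_nonneg (a + τ), pow_pos hκ0 2]
  set t : ℝ := (a + τ) / ‖x‖ with ht
  have ht2 : 1 - t ^ 2 = (κ / ‖x‖) ^ 2 := by
    rw [ht]
    field_simp
    linarith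
  have ht3 : t ^ 2 < 1 := by
    have : 0 < (κ / ‖x‖) ^ 2 := by positivity
    linarith
  obtain ⟨ht4, ht5⟩ := abs_lt.mp ((sq_lt_one_iff_abs_lt_one t).mp ht3)
  set s : ℝ := ‖e + ‖x‖⁻¹ • x‖ with hs
  have hs2 : s ^ 2 = 2 + 2 * t := by
    rw [hs, norm_add_sq_real, norm_smul, norm_inv, norm_norm, inner_smul_right, hxe, he, ht]
    field_simp
    ring
  have hs0 : 0 ≤ s := norm_nonneg _
  have hspos : 0 < s := by
    rcases hs0.lt_or_eq with h1 | h1
    · exact h1
    · exfalso
      rw [← h1] at hs2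
      linarith
  have hslt : s < 2 := by
    by_contra hcon
    push Not at hcon
    nlinarith
  refine ⟨s, ⟨hmem, hspos, hslt⟩, ?_⟩
  change κ * (s ^ 2 / 2 - 1) / √(1 - (s ^ 2 / 2 - 1) ^ 2) - a = τ
  have e2 : s ^ 2 / 2 - 1 = t := by rw [hs2]; ring
  rw [e2, ht2, Real.sqrt_sq (by positivity), ht]
  field_simp
  ring

theorem acx_generic (hd : 2 ≤ d) (e : E d) (he : ‖e‖ = 1) :
    ∀ᵐ y ∂(volume : Measure (E d)), ⟪e, y⟫ ^ 2 < ‖y‖ ^ 2 := by
  have hne : (ℝ ∙ e : Submodule ℝ (E d)) ≠ ⊤ := by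
    intro h
    have h1 : Module.finrank ℝ (ℝ ∙ e : Submodule ℝ (E d)) = 1 := by
      apply finrank_span_singleton
      intro h2
      rw [h2, norm_zero] at he
      exact zero_ne_one he
    rw [h, finrank_top] at h1
    have : Module.finrank ℝ (E d) = d := by simp
    omega
  have h0 := addHaar_submodule (volume : Measure (E d)) (ℝ ∙ e) hne
  rw [measure_eq_zero_iff_ae_notMem] at h0
  filter_upwards [h0] with y hy
  by_contra hcon
  push Not at hcon
  apply hy
  have hz : y - ⟪e, y⟫ • e = 0 := by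
    have : ‖y - ⟪e, y⟫ • e‖ ^ 2 ≤ 0 := by
      have h3 : ⟪y, e⟫ = ⟪e, y⟫ := real_inner_comm _ _
      rw [norm_sub_sq_real, norm_smul, he, inner_smul_right, h3,
        Real.norm_eq_abs, mul_one, sq_abs]
      nlinarith
    have h2 : ‖y - ⟪e, y⟫ • e‖ = 0 := by
      have := norm_nonneg (y - ⟪e, y⟫ • e)
      nlinarith
    exact norm_eq_zero.mp h2
  rw [sub_eq_zero] at hz
  rw [hz]
  exact Submodule.smul_mem _ _ (Submodule.mem_span_singleton_self e)

/-- The law of the sum of two independent uniform unit vectors is absolutely continuous. -/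
theorem law_ac (hd : 2 ≤ d) (e : E d) (he : ‖e‖ = 1) :
    map (fun x : Rot d × Rot d => act x.1 e + act x.2 e) ((rotHaar d).prod (rotHaar d)) ≪
      (volume : Measure (E d)) := by
  refine AbsolutelyContinuous.mk fun N hN h0 => ?_
  have hc : Continuous (fun x : Rot d × Rot d => act x.1 e + act x.2 e) :=
    ((acx_cont_left e).comp continuous_fst).add ((acx_cont_left e).comp continuous_snd)
  rw [map_apply hc.measurable hN]
  have hcE : Continuous (fun p : E d × Rot d => act p.2 p.1) :=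
    continuous_act.comp (continuous_snd.prodMk continuous_fst)
  -- the exceptional set
  let Bad : Set (E d) := {x | rotHaar d {Q | act Q x ∈ N} ≠ 0}
  have hBadm : MeasurableSet Bad := by
    have h1 : Measurable (fun x : E d => rotHaar d (Prod.mk x ⁻¹' {p : E d × Rot d | act p.2 p.1 ∈ N})) :=
      measurable_measure_prodMk_left (hcE.measurable hN)
    exact (h1 (measurableSet_singleton 0)).compl
  have hBadae : ∀ x, x ∉ Bad → ∀ᵐ Q ∂(rotHaar d), act Q x ∉ N := by
    intro x hx
    have h1 : rotHaar d {Q | act Q x ∈ N} = 0 := by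
      by_contra hcon
      exact hx hcon
    exact measure_eq_zero_iff_ae_notMem.mp h1
  have hBad0 : volume Bad = 0 := by
    rw [measure_eq_zero_iff_ae_notMem]
    filter_upwards [acx_ae_ae_act hN h0] with x hx hxB
    exact hxB (measure_eq_zero_iff_ae_notMem.mpr hx)
  have hBadinv : ∀ (U : Rot d) (x : E d), act U x ∈ Bad ↔ x ∈ Bad := by
    intro U x
    have h1 : rotHaar d {Q | act Q (act U x) ∈ N} = rotHaar d {Q | act Q x ∈ N} := by
      have h2 := (mp_mul_right U).measure_preimage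
        (s := {Q : Rot d | act Q x ∈ N})
        (((acx_cont_left x).measurable hN).nullMeasurableSet)
      rw [← h2]
      rfl
    change rotHaar d {Q | act Q (act U x) ∈ N} ≠ 0 ↔ rotHaar d {Q | act Q x ∈ N} ≠ 0
    rw [h1]
  have hBadnorm : ∀ x y : E d, ‖x‖ = ‖y‖ → (x ∈ Bad ↔ y ∈ Bad) := by
    intro x y hxy
    obtain ⟨U, hU⟩ := exists_rot hxy
    rw [← hU, hBadinv]
  let M : Set ℝ := {s | s • e ∈ Bad}
  have hMx : ∀ x : E d, ‖x‖ ∈ M ↔ x ∈ Bad := by
    intro x
    apply hBadnorm
    rw [norm_smul, he, norm_norm, mul_one]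
  have hM0 : volume (M ∩ Set.Ioi 0) = 0 := by
    apply acx_polar (d := d) (by omega)
    have h1 : {x : E d | ‖x‖ ∈ M} = Bad := Set.ext hMx
    rw [h1]
    exact hBad0
  let S : Set (E d) := {x | e + ‖x‖⁻¹ • x ∈ Bad}
  have hSm : MeasurableSet S := by
    have h1 : Measurable (fun x : E d => e + ‖x‖⁻¹ • x) := by fun_prop
    exact h1 hBadm
  have hS0 : ∀ᵐ x ∂(volume : Measure (E d)), x ∈ Sᶜ := by
    rw [← ae_ae_add_linearMap_mem_iff (LinearMap.toSpanSingleton ℝ (E d) e) volume volume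
      hSm.compl]
    filter_upwards [acx_generic hd e he] with y hy
    filter_upwards [acx_line hM0 e y he hy] with τ hτ hmem
    apply hτ
    rw [hMx]
    exact hmem
  have hS0' : volume S = 0 := by
    rw [measure_eq_zero_iff_ae_notMem]
    exact hS0
  have hx := acx_ae_ae_act hSm hS0'
  obtain ⟨x, hx1, hx0⟩ := (hx.and (acx_generic hd e he)).exists
  have hxpos : 0 < ‖x‖ := by
    have h1 : 0 ≤ ⟪e, x⟫ ^ 2 := sq_nonneg _
    rcases (norm_nonneg x).lt_or_eq with h2 | h2
    · exact h2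
    · exfalso
      rw [← h2] at hx0
      nlinarith
  obtain ⟨U, hU⟩ := exists_rot (v := e) (w := ‖x‖⁻¹ • x) (by
    rw [he, norm_smul, norm_inv, norm_norm, inv_mul_cancel₀ hxpos.ne'])
  have key1 : ∀ᵐ R ∂(rotHaar d), e + act (R * U) e ∉ Bad := by
    filter_upwards [hx1] with R hR hmem
    apply hR
    change e + ‖act R x‖⁻¹ • act R x ∈ Bad
    rw [norm_act, ← act_smul, ← hU, ← act_mul]
    exact hmem
  have key2 : ∀ᵐ R ∂(rotHaar d), e + act R e ∉ Bad := by
    have h1 := (mp_mul_right U⁻¹).quasiMeasurePreserving.ae key1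
    filter_upwards [h1] with R hR
    simpa using hR
  have key3 : ∀ R₁ : Rot d, ∀ᵐ R ∂(rotHaar d), act R₁ e + act R e ∉ Bad := by
    intro R₁
    have h1 := (mp_mul_left R₁⁻¹).quasiMeasurePreserving.ae key2
    filter_upwards [h1] with R hR hmem
    apply hR
    rw [← hBadinv R₁, act_add, ← act_mul, mul_inv_cancel_left]
    exact hmem
  have key4 : ∀ᵐ p ∂((rotHaar d).prod (rotHaar d)), act p.1 e + act p.2 e ∉ Bad := by
    have hm : MeasurableSet {p : Rot d × Rot d | act p.1 e + act p.2 e ∉ Bad} :=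
      (hc.measurable hBadm).compl
    rw [ae_prod_iff_ae_ae hm]
    exact Filter.Eventually.of_forall key3
  have key5 : ∀ᵐ p ∂((rotHaar d).prod (rotHaar d)), ∀ᵐ Q ∂(rotHaar d),
      act Q (act p.1 e + act p.2 e) ∉ N := by
    filter_upwards [key4] with p hp
    exact hBadae _ hp
  have hm6 : MeasurableSet {x : (Rot d × Rot d) × Rot d |
      act x.2 (act x.1.1 e + act x.1.2 e) ∉ N} := by
    have h1 : Continuous (fun x : (Rot d × Rot d) × Rot d =>
        act x.2 (act x.1.1 e + act x.1.2 e)) :=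
      continuous_act.comp (continuous_snd.prodMk (hc.comp continuous_fst))
    exact (h1.measurable hN).compl
  have key6 : ∀ᵐ Q ∂(rotHaar d), ∀ᵐ p ∂((rotHaar d).prod (rotHaar d)),
      act Q (act p.1 e + act p.2 e) ∉ N :=
    (Measure.ae_ae_comm (p := fun (p : Rot d × Rot d) (Q : Rot d) =>
      act Q (act p.1 e + act p.2 e) ∉ N) hm6).mp key5
  obtain ⟨Q, hQ⟩ := key6.exists
  have hmpQ : MeasurePreserving (Prod.map (fun R : Rot d => Q * R) (fun R : Rot d => Q * R))
      ((rotHaar d).prod (rotHaar d)) ((rotHaar d).prod (rotHaar d)) :=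
    (mp_mul_left Q).prod (mp_mul_left Q)
  have h7 := hmpQ.measure_preimage (s := (fun x : Rot d × Rot d => act x.1 e + act x.2 e) ⁻¹' N)
    ((hc.measurable hN).nullMeasurableSet)
  rw [← h7, measure_eq_zero_iff_ae_notMem]
  filter_upwards [hQ] with p hp hmem
  apply hp
  rw [act_add]
  exact hmem

end Pool.Agent.H16.Simp
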