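import Pool.Agent.H16.Simp.L2Rep

/-!
# Local densities
-/

open MeasureTheory Measure Metric Filter Topology
open scoped RealInnerProductSpace

set_option linter.unusedSectionVars false

namespace Pool.Agent.H16.Simp

variable {d : ℕ}

theorem TransRep.inner_S_eq {H : Type} [NormedAddCommGroup H] [InnerProductSpace ℝ H]
    [CompleteSpace H] (T : TransRep d H) (c : E d) (u w : H) :
    ⟪T.S c u, w⟫ = ∫ R, ⟪T.τ (act R c) u, w⟫ ∂(rotHaar d) := by
  unfold TransRep.S
  rw [real_inner_comm, ← integral_inner (T.integrable_act c u)]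
  simp only [real_inner_comm]

/-- The shift used for local densities. -/
noncomputable def shift (c : E d) (x : Rot d × Rot d) : E d := act x.1 c + act x.2 c

theorem shift_cont (c : E d) : Continuous (shift c) :=
  (continuous_act.comp (continuous_fst.prodMk continuous_const)).add
    (continuous_act.comp (continuous_snd.prodMk continuous_const))

theorem norm_shift_le (c : E d) (x : Rot d × Rot d) : ‖shift c x‖ ≤ 2 * ‖c‖ := by
  unfold shift
  calc ‖act x.1 c + act x.2 c‖ ≤ ‖act x.1 c‖ + ‖act x.2 c‖ := norm_add_le _ _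
    _ = 2 * ‖c‖ := by rw [norm_act, norm_act]; ring

/-- The local density. -/
noncomputable def dens (c : E d) (f : E d → ℝ) : E d → ℝ :=
  avg ((rotHaar d).prod (rotHaar d)) (shift c) f

/-- Local data: everything except the choice of scales. -/
theorem good_of (f : E d → ℝ) (hf : Measurable f) (h0 : ∀ x, 0 ≤ f x) (h1 : ∀ x, f x ≤ 1)
    (hi : Integrable f) (C ε V l : ℝ) (hV : 0 < V) (hl : 0 < l) (hfV : ∫ x, f x ≤ V)
    (hε : 0 < ε)
    (c₀ : E d) (B : Set (E d)) (hB : MeasurableSet B)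
    (hBV : volume B ≤ ENNReal.ofReal ((1 + ε) * V))
    (hfB : ∀ x v, f (x + v) ≠ 0 → ‖v‖ ≤ 2 * ‖c₀‖ → x ∈ B) (hf2 : MemLp f 2 volume)
    (hS : ∀ c : E d, l / C ≤ ‖c‖ → ‖c‖ ≤ C * l →
        |⟪(l2Rep d).S c (hf2.toLp f), hf2.toLp f⟫ - ‖(l2Rep d).S c₀ (hf2.toLp f)‖ ^ 2|
          ≤ min ε 1 * ‖hf2.toLp f‖ ^ 2 ∧
        |⟪(l2Rep d).S c (hf2.toLp f), (l2Rep d).S c₀ ((l2Rep d).S c₀ (hf2.toLp f))⟫ -
          ‖(l2Rep d).S c₀ (hf2.toLp f)‖ ^ 2| ≤ min ε 1 * ‖hf2.toLp f‖ ^ 2)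
    (hS' : ∀ v : E d, ‖v‖ ≤ C * l →
          ‖(l2Rep d).τ v ((l2Rep d).S c₀ ((l2Rep d).S c₀ (hf2.toLp f)))
            - (l2Rep d).S c₀ ((l2Rep d).S c₀ (hf2.toLp f))‖ ≤ min ε 1 * ‖hf2.toLp f‖) :
    Good d C ε f (dens c₀ f) l V := by
  have habs : ∀ x, |f x| ≤ 1 := fun x => by rw [abs_of_nonneg (h0 x)]; exact h1 x
  have hym : Measurable (shift c₀ : Rot d × Rot d → E d) := (shift_cont c₀).measurable
  have hgm : Measurable (dens c₀ f) := avg_measurable hym hf
  have hg0 : ∀ x, 0 ≤ dens c₀ f x := avg_nonneg h0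
  have hg1 : ∀ x, dens c₀ f x ≤ 1 := avg_le_one hym hf h0 h1
  have hgi : Integrable (dens c₀ f) := avg_integrable hym hf hi
  have hg2 : MemLp (dens c₀ f) 2 volume := memLp_two_of hgm hgi
    (fun x => by rw [abs_of_nonneg (hg0 x)]; exact hg1 x)
  have hG : hg2.toLp _ = (l2Rep d).S c₀ ((l2Rep d).S c₀ (hf2.toLp f)) := by
    rw [TransRep.S_S_eq]
    exact avg_toLp (shift_cont c₀) hf hf2 hg2
  have hnf : ‖hf2.toLp f‖ ^ 2 ≤ V := by
    rw [norm_sq_toLp]
    refine le_trans (integral_mono_of_nonneg (ae_of_all _ (fun x => sq_nonneg _)) hi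
      (ae_of_all _ (fun x => ?_))) hfV
    have := h0 x
    have := h1 x
    simp only
    nlinarith
  have hmin : min ε 1 ≤ ε := min_le_left _ _
  have hmin0 : 0 < min ε 1 := lt_min hε one_pos
  have hbound : min ε 1 * ‖hf2.toLp f‖ ^ 2 ≤ ε * V :=
    mul_le_mul hmin hnf (sq_nonneg _) hε.le
  have hlC : ∀ c : E d, 1 / C ≤ ‖c‖ → ‖c‖ ≤ C → l / C ≤ ‖l • c‖ ∧ ‖l • c‖ ≤ C * l := by
    intro c hc1 hc2
    rw [norm_smul, Real.norm_of_nonneg hl.le]
    constructor
    · calc l / C = l * (1 / C) := by ring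
        _ ≤ l * ‖c‖ := mul_le_mul_of_nonneg_left hc1 hl.le
    · rw [mul_comm C l]
      exact mul_le_mul_of_nonneg_left hc2 hl.le
  refine { V_pos := hV, l_pos := hl, f_meas := hf, g_meas := hgm, f_nonneg := h0, f_le_one := h1
           g_nonneg := hg0, g_le_one := hg1, f_int := hi, g_int := hgi, f_mass := hfV
           int_eq := integral_avg hym hf hi, supp := ⟨B, hB, hBV, ?_⟩, corr := ?_, smooth := ?_ }
  · intro x hx
    unfold dens avg
    rw [integral_eq_zero_of_ae]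
    filter_upwards with ω
    by_contra hne
    exact hx (hfB x _ hne (norm_shift_le c₀ ω))
  · refine ⟨‖(l2Rep d).S c₀ (hf2.toLp f)‖ ^ 2, ?_, ?_⟩
    · rw [← norm_sq_toLp hg2, hG]
      exact pow_le_pow_left₀ (norm_nonneg _) ((l2Rep d).norm_S_le _ _) 2
    · intro c hc1 hc2
      obtain ⟨h3, h4⟩ := hlC c hc1 hc2
      obtain ⟨h5, h6⟩ := hS (l • c) h3 h4
      have key : ∀ {w : E d → ℝ} (hw : MemLp w 2 volume),
          ⟪(l2Rep d).S (l • c) (hf2.toLp f), hw.toLp w⟫ =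
            ∫ R, (∫ x, f (x + l • act R c) * w x) ∂(rotHaar d) := by
        intro w hw
        rw [TransRep.inner_S_eq]
        congr 1
        funext R
        rw [act_smul]
        change ⟪trans d (l • act R c) (hf2.toLp f), hw.toLp w⟫ = _
        rw [trans_toLp]
        exact inner_toLp _ hw
      rw [key hf2] at h5
      rw [← hG, key hg2] at h6
      exact ⟨h5.trans hbound, h6.trans hbound⟩
  · intro v hv
    have h3 : ‖l • v‖ ≤ C * l := by
      rw [norm_smul, Real.norm_of_nonneg hl.le, mul_comm C l]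
      exact mul_le_mul_of_nonneg_left hv hl.le
    have h4 := hS' (l • v) h3
    rw [← hG] at h4
    change ‖trans d (l • v) (hg2.toLp _) - hg2.toLp _‖ ≤ _ at h4
    rw [trans_toLp, ← MemLp.toLp_sub] at h4
    have h5 := norm_sq_toLp ((hg2.comp_measurePreserving (mp_add (l • v))).sub hg2)
    have h6 : ∫ x, (dens c₀ f (x + l • v) - dens c₀ f x) ^ 2 =
        ‖((hg2.comp_measurePreserving (mp_add (l • v))).sub hg2).toLp _‖ ^ 2 := by
      rw [h5]; rfl
    rw [h6]
    calc _ ≤ (min ε 1 * ‖hf2.toLp f‖) ^ 2 := pow_le_pow_left₀ (norm_nonneg _) h4 2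
      _ = min ε 1 * (min ε 1 * ‖hf2.toLp f‖ ^ 2) := by ring
      _ ≤ 1 * (min ε 1 * ‖hf2.toLp f‖ ^ 2) := by
          apply mul_le_mul_of_nonneg_right (min_le_right _ _)
          exact mul_nonneg hmin0.le (sq_nonneg _)
      _ ≤ ε * V := by rw [one_mul]; exact hbound

end Pool.Agent.H16.Simp
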