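import Pool.Agent.H16.Simp.Rep

/-!
# Decay of spherical averages in an isometric representation, given absolute continuity
-/

open MeasureTheory Measure Metric Filter Topology
open scoped RealInnerProductSpace

set_option linter.unusedSectionVars false

namespace Pool.Agent.H16.Simp

variable {d : ℕ}

/-- The law of the sum of two independent uniform unit vectors is absolutely continuous. -/
def LawAC (d : ℕ) : Prop := ∀ e : E d, ‖e‖ = 1 →
    map (fun x : Rot d × Rot d => act x.1 e + act x.2 e) ((rotHaar d).prod (rotHaar d)) ≪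
      (volume : Measure (E d))

theorem continuous_sum_act (e : E d) :
    Continuous (fun x : Rot d × Rot d => act x.1 e + act x.2 e) :=
  (continuous_act.comp (continuous_fst.prodMk continuous_const)).add
    (continuous_act.comp (continuous_snd.prodMk continuous_const))

/-- Continuity of translations in `L^1` at zero, for a continuous function of compact support. -/
theorem tendsto_translate_of_compact (h : E d → ℝ) (hc : Continuous h)
    (hs : HasCompactSupport h) :
    Tendsto (fun v : E d => ∫ y, |h y - h (y - v)|) (𝓝 0) (𝓝 0) := by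
  obtain ⟨M, hM⟩ := hs.exists_bound_of_continuous hc
  obtain ⟨r, hr⟩ := hs.isCompact.isBounded.subset_closedBall (0 : E d)
  have hM0 : 0 ≤ M := (norm_nonneg _).trans (hM 0)
  have h0 : ∀ y : E d, r < ‖y‖ → h y = 0 := by
    intro y hy
    by_contra hne
    have := hr (subset_tsupport _ (Function.mem_support.mpr hne))
    rw [mem_closedBall_zero_iff] at this
    linarith
  have key : Tendsto (fun v : E d => ∫ y, |h y - h (y - v)|) (𝓝 0)
      (𝓝 (∫ _ : E d, (0 : ℝ))) := by
    apply tendsto_integral_filter_of_dominated_convergence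
      ((closedBall (0 : E d) (r + 1)).indicator fun _ => 2 * M)
    · apply Eventually.of_forall
      intro v
      exact ((hc.sub (hc.comp (continuous_id.sub continuous_const))).abs).aestronglyMeasurable
    · have h1 : ∀ᶠ v : E d in 𝓝 0, ‖v‖ < 1 := by
        have := (continuous_norm (E := E d)).tendsto 0
        rw [norm_zero] at this
        exact this.eventually (gt_mem_nhds one_pos)
      filter_upwards [h1] with v hv
      apply Eventually.of_forall
      intro y
      by_cases hy : y ∈ closedBall (0 : E d) (r + 1)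
      · rw [Set.indicator_of_mem hy, Real.norm_eq_abs, abs_abs]
        have a1 := hM y
        have a2 := hM (y - v)
        rw [Real.norm_eq_abs] at a1 a2
        calc |h y - h (y - v)| ≤ |h y| + |h (y - v)| := abs_sub _ _
          _ ≤ 2 * M := by linarith
      · rw [Set.indicator_of_notMem hy]
        rw [mem_closedBall_zero_iff, not_le] at hy
        have b1 : h y = 0 := h0 y (by linarith)
        have b2 : h (y - v) = 0 := by
          apply h0
          have := norm_sub_norm_le y v
          linarith
        rw [b1, b2]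
        simp
    · refine (integrable_indicator_iff measurableSet_closedBall).mpr ?_
      exact integrableOn_const (measure_closedBall_lt_top).ne
    · apply Eventually.of_forall
      intro y
      have h2 : Continuous (fun v : E d => |h y - h (y - v)|) :=
        (continuous_const.sub (hc.comp (continuous_const.sub continuous_id))).abs
      have h3 := h2.tendsto 0
      simpa using h3
  simpa using key

/-- Continuity of translations in `L^1` at zero. -/
theorem tendsto_translate (k : E d → ℝ) (hk : Integrable k) :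
    Tendsto (fun v : E d => ∫ y, |k y - k (y - v)|) (𝓝 0) (𝓝 0) := by
  rw [Metric.tendsto_nhds]
  intro ε hε
  obtain ⟨h, hs, hkh, hc, hi⟩ := hk.exists_hasCompactSupport_integral_sub_le
    (show 0 < ε / 4 by positivity)
  have h1 := tendsto_translate_of_compact h hc hs
  rw [Metric.tendsto_nhds] at h1
  filter_upwards [h1 (ε / 4) (by positivity)] with v hv
  rw [Real.dist_eq, sub_zero] at hv ⊢
  have n1 : 0 ≤ ∫ y, |k y - k (y - v)| := integral_nonneg fun y => abs_nonneg _
  have n2 : 0 ≤ ∫ y, |h y - h (y - v)| := integral_nonneg fun y => abs_nonneg _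
  rw [abs_of_nonneg n1]
  rw [abs_of_nonneg n2] at hv
  have i1 : Integrable (fun y => |k y - h y|) := (hk.sub hi).abs
  have i2 : Integrable (fun y => |k (y - v) - h (y - v)|) :=
    ((hk.comp_sub_right v).sub (hi.comp_sub_right v)).abs
  have i3 : Integrable (fun y => |h y - h (y - v)|) := (hi.sub (hi.comp_sub_right v)).abs
  have e1 : ∫ y, |k (y - v) - h (y - v)| = ∫ y, |k y - h y| :=
    integral_sub_right_eq_self (fun y => |k y - h y|) v
  calc ∫ y, |k y - k (y - v)|
      ≤ ∫ y, (|k y - h y| + |k (y - v) - h (y - v)| + |h y - h (y - v)|) := by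
        apply integral_mono ((hk.sub (hk.comp_sub_right v)).abs) ((i1.add i2).add i3)
        intro y
        have : k y - k (y - v) = (k y - h y) + (-(k (y - v) - h (y - v))) +
          (h y - h (y - v)) := by ring
        show |k y - k (y - v)| ≤ |k y - h y| + |k (y - v) - h (y - v)| + |h y - h (y - v)|
        rw [this]
        refine (abs_add_three _ _ _).trans ?_
        rw [abs_neg]
    _ = (∫ y, |k y - h y|) + (∫ y, |k (y - v) - h (y - v)|) + ∫ y, |h y - h (y - v)| := by
        have j1 : ∫ y, (|k y - h y| + |k (y - v) - h (y - v)| + |h y - h (y - v)|) =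
            (∫ y, (|k y - h y| + |k (y - v) - h (y - v)|)) + ∫ y, |h y - h (y - v)| :=
          integral_add (i1.add i2) i3
        rw [j1, integral_add i1 i2]
    _ < ε := by
        rw [e1]
        have : ∫ y, |k y - h y| ≤ ε / 4 := hkh
        linarith

theorem exists_kernel_of (hlac : LawAC d) (e : E d) (he : ‖e‖ = 1) :
    ∃ k : E d → ℝ, Measurable k ∧ Integrable k ∧ (∀ y, 0 ≤ k y) ∧
      map (fun x : Rot d × Rot d => act x.1 e + act x.2 e) ((rotHaar d).prod (rotHaar d)) =
        volume.withDensity (fun y => ENNReal.ofReal (k y)) ∧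
      Tendsto (fun v : E d => ∫ y, |k y - k (y - v)|) (𝓝 0) (𝓝 0) := by
  set μ := map (fun x : Rot d × Rot d => act x.1 e + act x.2 e)
    ((rotHaar d).prod (rotHaar d)) with hμ
  have hp : IsProbabilityMeasure μ :=
    isProbabilityMeasure_map (continuous_sum_act e).measurable.aemeasurable
  have hac : μ ≪ (volume : Measure (E d)) := hlac e he
  have hint : Integrable (fun y => (μ.rnDeriv volume y).toReal) (volume : Measure (E d)) :=
    integrable_toReal_rnDeriv
  refine ⟨fun y => (μ.rnDeriv volume y).toReal, (measurable_rnDeriv _ _).ennreal_toReal, hint,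
    fun y => ENNReal.toReal_nonneg, ?_, tendsto_translate _ hint⟩
  have h1 := withDensity_rnDeriv_eq μ volume hac
  rw [← h1]
  apply withDensity_congr_ae
  filter_upwards [rnDeriv_lt_top μ volume] with y hy
  rw [h1, ENNReal.ofReal_toReal hy.ne]

section
variable {H : Type} [NormedAddCommGroup H] [InnerProductSpace ℝ H] [CompleteSpace H]

theorem TransRep.S_S_kernel (T : TransRep d H) (e : E d) (k : E d → ℝ) (hk : Measurable k)
    (hk0 : ∀ y, 0 ≤ k y)
    (hlaw : map (fun x : Rot d × Rot d => act x.1 e + act x.2 e)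
      ((rotHaar d).prod (rotHaar d)) = volume.withDensity (fun y => ENNReal.ofReal (k y)))
    (u : H) : T.S e (T.S e u) = ∫ y, k y • T.τ y u := by
  rw [T.S_S_eq]
  have h1 := integral_map (μ := (rotHaar d).prod (rotHaar d))
    (φ := fun x : Rot d × Rot d => act x.1 e + act x.2 e) (f := fun y => T.τ y u)
    (continuous_sum_act e).measurable.aemeasurable (T.cont u).aestronglyMeasurable
  rw [← h1, hlaw, integral_withDensity_eq_integral_toReal_smul (hk.ennreal_ofReal)
    (Eventually.of_forall fun y => ENNReal.ofReal_lt_top)]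
  congr 1
  funext y
  rw [ENNReal.toReal_ofReal (hk0 y)]

theorem TransRep.integrable_kernel (T : TransRep d H) (k : E d → ℝ) (hk : Integrable k)
    (u : H) : Integrable (fun y => k y • T.τ y u) := by
  refine (hk.norm.mul_const ‖u‖).mono' (hk.aestronglyMeasurable.smul
    (T.cont u).aestronglyMeasurable) (Eventually.of_forall fun y => ?_)
  rw [norm_smul, T.norm_τ]

theorem TransRep.S_S_kernel_sub (T : TransRep d H) (e : E d) (k : E d → ℝ) (hk : Measurable k)
    (hki : Integrable k) (hk0 : ∀ y, 0 ≤ k y)
    (hlaw : map (fun x : Rot d × Rot d => act x.1 e + act x.2 e)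
      ((rotHaar d).prod (rotHaar d)) = volume.withDensity (fun y => ENNReal.ofReal (k y)))
    (u : H) (v : E d) :
    ‖T.S e (T.S e (u - T.τ v u))‖ ≤ (∫ y, |k y - k (y - v)|) * ‖u‖ := by
  have hki' : Integrable (fun y => k (y - v)) := hki.comp_sub_right v
  have h1 : T.S e (T.S e (u - T.τ v u)) = ∫ y, (k y - k (y - v)) • T.τ y u := by
    rw [T.S_S_kernel e k hk hk0 hlaw]
    have a1 : ∀ y, k y • T.τ y (u - T.τ v u) = k y • T.τ y u - k y • T.τ (y + v) u := by
      intro y
      rw [map_sub, smul_sub, T.τ_add]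
    simp only [a1]
    have i2 : Integrable (fun y => k (y - v) • T.τ y u) := T.integrable_kernel _ hki' u
    have i3 : Integrable (fun y => k y • T.τ (y + v) u) := by
      have := i2.comp_add_right v
      simpa using this
    have e3 : ∫ y, k y • T.τ (y + v) u = ∫ y, k (y - v) • T.τ y u := by
      have := integral_add_right_eq_self (μ := (volume : Measure (E d)))
        (fun y => k (y - v) • T.τ y u) v
      rw [← this]
      simp
    rw [integral_sub (T.integrable_kernel k hki u) i3, e3,
      ← integral_sub (T.integrable_kernel k hki u) i2]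
    simp only [sub_smul]
  rw [h1]
  calc ‖∫ y, (k y - k (y - v)) • T.τ y u‖ ≤ ∫ y, ‖(k y - k (y - v)) • T.τ y u‖ :=
        norm_integral_le_integral_norm _
    _ = ∫ y, |k y - k (y - v)| * ‖u‖ := by
        simp only [norm_smul, T.norm_τ, Real.norm_eq_abs]
    _ = _ := integral_mul_const _ _

/-- The representation with rescaled translations. -/
noncomputable def TransRep.scale (T : TransRep d H) (r : ℝ) : TransRep d H where
  τ v := T.τ (r • v)
  norm_τ v u := T.norm_τ _ u
  τ_add v w u := by rw [smul_add, T.τ_add]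
  τ_zero u := by rw [smul_zero, T.τ_zero]
  cont u := (T.cont u).comp (continuous_const_smul r)

theorem TransRep.scale_τ (T : TransRep d H) (r : ℝ) (v : E d) :
    (T.scale r).τ v = T.τ (r • v) := rfl

theorem TransRep.scale_S (T : TransRep d H) (r : ℝ) (c : E d) (u : H) :
    (T.scale r).S c u = T.S (r • c) u := by
  unfold TransRep.S
  simp only [TransRep.scale_τ, act_smul]

end

theorem exists_unit (hd : 2 ≤ d) : ∃ e : E d, ‖e‖ = 1 :=
  ⟨EuclideanSpace.single ⟨0, by omega⟩ (1 : ℝ), by simp⟩

theorem decay_of (hlac : LawAC d) (hd : 2 ≤ d) (ε : ℝ) (hε : 0 < ε) : ∃ δ : ℝ, 0 < δ ∧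
    ∀ (H : Type) [NormedAddCommGroup H] [InnerProductSpace ℝ H] [CompleteSpace H]
      (T : TransRep d H) (u : H) (c v : E d), ‖v‖ ≤ δ * ‖c‖ →
        ‖T.S c (u - T.τ v u)‖ ≤ ε * ‖u‖ := by
  obtain ⟨e, he⟩ := exists_unit hd
  obtain ⟨k, hk, hki, hk0, hlaw, hlim⟩ := exists_kernel_of hlac e he
  rw [Metric.tendsto_nhds_nhds] at hlim
  obtain ⟨δ, hδ, hδ'⟩ := hlim (ε ^ 2 / 2) (by positivity)
  refine ⟨δ / 2, by positivity, ?_⟩
  intro H _ _ _ T u c v hv
  by_cases hc : c = 0
  · have hv0 : v = 0 := by
      rw [hc, norm_zero, mul_zero] at hv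
      exact norm_le_zero_iff.mp hv
    rw [hv0, T.τ_zero, sub_self, ← T.SL_apply, map_zero, norm_zero]
    positivity
  · have hr : 0 < ‖c‖ := norm_pos_iff.mpr hc
    set r := ‖c‖ with hrdef
    set T' := T.scale r with hT'
    set v' := r⁻¹ • v with hv'
    have hS : ∀ w : H, T.S c w = T'.S e w := by
      intro w
      rw [hT', T.scale_S]
      apply T.S_congr
      rw [norm_smul, he, mul_one, Real.norm_eq_abs, abs_of_pos hr]
    have hτ : T.τ v = T'.τ v' := by
      rw [hT', T.scale_τ, hv', smul_smul, mul_inv_cancel₀ hr.ne', one_smul]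
    have hv'n : ‖v'‖ < δ := by
      rw [hv', norm_smul, norm_inv, Real.norm_eq_abs, abs_of_pos hr]
      rw [inv_mul_lt_iff₀ hr]
      nlinarith
    have hint : (∫ y, |k y - k (y - v')|) < ε ^ 2 / 2 := by
      have := hδ' (x := v') (by rwa [dist_zero_right])
      rw [Real.dist_eq, sub_zero] at this
      exact (le_abs_self _).trans_lt this
    rw [hS, hτ]
    set h := u - T'.τ v' u with hh
    have h1 : ‖T'.S e (T'.S e h)‖ ≤ ε ^ 2 / 2 * ‖u‖ :=
      (T'.S_S_kernel_sub e k hk hki hk0 hlaw u v').trans
        (mul_le_mul_of_nonneg_right hint.le (norm_nonneg _))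
    have h2 : ‖h‖ ≤ 2 * ‖u‖ := by
      calc ‖h‖ ≤ ‖u‖ + ‖T'.τ v' u‖ := norm_sub_le _ _
        _ = 2 * ‖u‖ := by rw [T'.norm_τ]; ring
    have h3 : ‖T'.S e h‖ ^ 2 ≤ (ε * ‖u‖) ^ 2 := by
      have : ‖T'.S e h‖ ^ 2 = ⟪h, T'.S e (T'.S e h)⟫ := by
        rw [← T'.inner_S, real_inner_self_eq_norm_sq]
      rw [this]
      calc ⟪h, T'.S e (T'.S e h)⟫ ≤ ‖h‖ * ‖T'.S e (T'.S e h)‖ := real_inner_le_norm _ _
        _ ≤ (2 * ‖u‖) * (ε ^ 2 / 2 * ‖u‖) := by
            apply mul_le_mul h2 h1 (norm_nonneg _) (by positivity)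
        _ = (ε * ‖u‖) ^ 2 := by ring
    exact le_of_sq_le_sq h3 (by positivity)

theorem decay'_of (hlac : LawAC d) (hd : 2 ≤ d) (ε : ℝ) (hε : 0 < ε) : ∃ δ : ℝ, 0 < δ ∧
    ∀ (H : Type) [NormedAddCommGroup H] [InnerProductSpace ℝ H] [CompleteSpace H]
      (T : TransRep d H) (u : H) (c c' : E d), ‖c'‖ ≤ δ * ‖c‖ →
        ‖T.S c (u - T.S c' u)‖ ≤ ε * ‖u‖ := by
  obtain ⟨δ, hδ, h⟩ := decay_of hlac hd ε hε
  refine ⟨δ, hδ, ?_⟩
  intro H _ _ _ T u c c' hc
  have h1 : u - T.S c' u = ∫ R, (u - T.τ (act R c') u) ∂(rotHaar d) := by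
    rw [integral_sub (integrable_const u) (T.integrable_act c' u)]
    simp [TransRep.S]
  have h2 : T.S c (u - T.S c' u) = ∫ R, T.S c (u - T.τ (act R c') u) ∂(rotHaar d) := by
    rw [h1]
    have := (T.SL c).integral_comp_comm ((integrable_const u).sub (T.integrable_act c' u))
    exact this.symm
  rw [h2]
  calc ‖∫ R, T.S c (u - T.τ (act R c') u) ∂(rotHaar d)‖
      ≤ ε * ‖u‖ * ((rotHaar d).real Set.univ) := by
        apply norm_integral_le_of_norm_le_const
        apply Eventually.of_forall
        intro R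
        apply h
        rwa [norm_act]
    _ = ε * ‖u‖ := by simp

end Pool.Agent.H16.Simp
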