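import Pool.Agent.H16.Simp.AbsCont
import Pool.Agent.H16.Simp.DecayCore

/-!
# Decay of spherical averages in an isometric representation
-/

open MeasureTheory Measure Metric Filter Topology
open scoped RealInnerProductSpace

namespace Pool.Agent.H16.Simp

variable {d : ℕ}

theorem exists_kernel (hd : 2 ≤ d) (e : E d) (he : ‖e‖ = 1) :
    ∃ k : E d → ℝ, Measurable k ∧ Integrable k ∧ (∀ y, 0 ≤ k y) ∧
      map (fun x : Rot d × Rot d => act x.1 e + act x.2 e) ((rotHaar d).prod (rotHaar d)) =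
        volume.withDensity (fun y => ENNReal.ofReal (k y)) ∧
      Tendsto (fun v : E d => ∫ y, |k y - k (y - v)|) (𝓝 0) (𝓝 0) :=
  exists_kernel_of (fun e he => law_ac hd e he) e he

theorem decay (hd : 2 ≤ d) (ε : ℝ) (hε : 0 < ε) : ∃ δ : ℝ, 0 < δ ∧
    ∀ (H : Type) [NormedAddCommGroup H] [InnerProductSpace ℝ H] [CompleteSpace H]
      (T : TransRep d H) (u : H) (c v : E d), ‖v‖ ≤ δ * ‖c‖ →
        ‖T.S c (u - T.τ v u)‖ ≤ ε * ‖u‖ :=
  decay_of (fun e he => law_ac hd e he) hd ε hε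

theorem decay' (hd : 2 ≤ d) (ε : ℝ) (hε : 0 < ε) : ∃ δ : ℝ, 0 < δ ∧
    ∀ (H : Type) [NormedAddCommGroup H] [InnerProductSpace ℝ H] [CompleteSpace H]
      (T : TransRep d H) (u : H) (c c' : E d), ‖c'‖ ≤ δ * ‖c‖ →
        ‖T.S c (u - T.S c' u)‖ ≤ ε * ‖u‖ :=
  decay'_of (fun e he => law_ac hd e he) hd ε hε

end Pool.Agent.H16.Simp
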