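import Pool.Agent.H16.Simp.Defs

/-!
# Basic facts on spherical averages in an isometric representation
-/

open MeasureTheory Measure Metric Filter Topology

set_option linter.unusedSectionVars false
open scoped RealInnerProductSpace

namespace Pool.Agent.H16.Simp

variable {d : ℕ} {H : Type} [NormedAddCommGroup H] [InnerProductSpace ℝ H] [CompleteSpace H]

namespace TransRep

theorem cont_act (T : TransRep d H) (c : E d) (u : H) :
    Continuous (fun R : Rot d => T.τ (act R c) u) :=
  (T.cont u).comp (continuous_act.comp (continuous_id.prodMk continuous_const))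

theorem integrable_act (T : TransRep d H) (c : E d) (u : H) :
    Integrable (fun R : Rot d => T.τ (act R c) u) (rotHaar d) :=
  (T.cont_act c u).integrable_of_hasCompactSupport (HasCompactSupport.of_compactSpace _)

theorem S_sub (T : TransRep d H) (c : E d) (u w : H) :
    T.S c (u - w) = T.S c u - T.S c w := by
  unfold S
  rw [← integral_sub (T.integrable_act c u) (T.integrable_act c w)]
  simp only [map_sub]

theorem S_add (T : TransRep d H) (c : E d) (u w : H) :
    T.S c (u + w) = T.S c u + T.S c w := by
  unfold S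
  rw [← integral_add (T.integrable_act c u) (T.integrable_act c w)]
  simp only [map_add]

theorem S_smul (T : TransRep d H) (c : E d) (a : ℝ) (u : H) :
    T.S c (a • u) = a • T.S c u := by
  unfold S
  rw [← integral_smul]
  simp only [map_smul]

theorem norm_S_le (T : TransRep d H) (c : E d) (u : H) : ‖T.S c u‖ ≤ ‖u‖ := by
  unfold S
  calc ‖∫ R, T.τ (act R c) u ∂(rotHaar d)‖ ≤ ∫ R, ‖T.τ (act R c) u‖ ∂(rotHaar d) :=
        norm_integral_le_integral_norm _
    _ = ‖u‖ := by simp [T.norm_τ]

/-- The spherical average as a continuous linear map. -/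
noncomputable def SL (T : TransRep d H) (c : E d) : H →L[ℝ] H :=
  LinearMap.mkContinuous
    { toFun := T.S c
      map_add' := T.S_add c
      map_smul' := T.S_smul c } 1 (fun u => by rw [one_mul]; exact T.norm_S_le c u)

theorem SL_apply (T : TransRep d H) (c : E d) (u : H) : T.SL c u = T.S c u := rfl

theorem inner_τ (T : TransRep d H) (v : E d) (u w : H) : ⟪T.τ v u, w⟫ = ⟪u, T.τ (-v) w⟫ := by
  have h1 : w = T.τ v (T.τ (-v) w) := by
    rw [← T.τ_add, add_neg_cancel, T.τ_zero]
  conv_lhs => rw [h1]
  let L : H →ₗᵢ[ℝ] H := ⟨(T.τ v).toLinearMap, T.norm_τ v⟩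
  exact L.inner_map_map u (T.τ (-v) w)

theorem S_congr (T : TransRep d H) {c c' : E d} (h : ‖c‖ = ‖c'‖) (u : H) :
    T.S c u = T.S c' u := by
  obtain ⟨U, hU⟩ := exists_rot h
  unfold S
  rw [← hU]
  have := (mp_mul_right U).integral_comp (MeasurableEquiv.mulRight U).measurableEmbedding
    (fun R => T.τ (act R c) u)
  rw [← this]
  rfl

theorem inner_S (T : TransRep d H) (c : E d) (u w : H) : ⟪T.S c u, w⟫ = ⟪u, T.S c w⟫ := by
  have h1 : ⟪T.S c u, w⟫ = ∫ R, ⟪T.τ (act R c) u, w⟫ ∂(rotHaar d) := by
    unfold S
    rw [real_inner_comm, ← integral_inner (T.integrable_act c u)]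
    simp only [real_inner_comm]
  have h2 : ⟪u, T.S c w⟫ = ⟪u, T.S (-c) w⟫ := by rw [T.S_congr (norm_neg c).symm]
  rw [h1, h2]
  unfold S
  rw [← integral_inner (T.integrable_act (-c) w)]
  congr 1
  funext R
  rw [T.inner_τ, act_neg]

theorem τ_comm (T : TransRep d H) (v w : E d) (u : H) : T.τ v (T.τ w u) = T.τ w (T.τ v u) := by
  rw [← T.τ_add, ← T.τ_add, add_comm]

theorem τ_S (T : TransRep d H) (c v : E d) (u : H) : T.τ v (T.S c u) = T.S c (T.τ v u) := by
  unfold S
  rw [← ContinuousLinearMap.integral_comp_comm _ (T.integrable_act c u)]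
  simp only [T.τ_comm v]

theorem cont_act2 (T : TransRep d H) (c c' : E d) (u : H) :
    Continuous (fun x : Rot d × Rot d => T.τ (act x.1 c + act x.2 c') u) := by
  apply (T.cont u).comp
  exact (continuous_act.comp (continuous_fst.prodMk continuous_const)).add
    (continuous_act.comp (continuous_snd.prodMk continuous_const))

theorem integrable_act2 (T : TransRep d H) (c c' : E d) (u : H) :
    Integrable (fun x : Rot d × Rot d => T.τ (act x.1 c + act x.2 c') u)
      ((rotHaar d).prod (rotHaar d)) :=
  (T.cont_act2 c c' u).integrable_of_hasCompactSupport (HasCompactSupport.of_compactSpace _)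

theorem S_S_eq (T : TransRep d H) (c c' : E d) (u : H) :
    T.S c (T.S c' u) = ∫ x : Rot d × Rot d, T.τ (act x.1 c + act x.2 c') u
      ∂((rotHaar d).prod (rotHaar d)) := by
  rw [integral_prod _ (T.integrable_act2 c c' u)]
  unfold S
  congr 1
  funext R
  rw [← ContinuousLinearMap.integral_comp_comm _ (T.integrable_act c' u)]
  simp only [T.τ_add]

theorem S_comm (T : TransRep d H) (c c' : E d) (u : H) :
    T.S c (T.S c' u) = T.S c' (T.S c u) := by
  rw [T.S_S_eq, T.S_S_eq, ← integral_prod_swap]
  simp only [Prod.fst_swap, Prod.snd_swap, add_comm]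

end TransRep

end Pool.Agent.H16.Simp
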