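import Pool.Agent.H16.Simp.ScaleCore
import Pool.Agent.H16.Simp.Rep
import Pool.Agent.H16.Simp.Decay

/-!
# Selection of a stable scale (job SIMP-D, helper39)
-/

open MeasureTheory Measure Metric Filter Topology
open scoped RealInnerProductSpace

namespace Pool.Agent.H16.Simp

variable {d : ℕ}

theorem exists_scale (hd : 2 ≤ d) (C : ℝ) (hC : 1 ≤ C) (ε : ℝ) (hε : 0 < ε) :
    ∃ δ : ℝ, 0 < δ ∧ ∃ J : ℕ,
    ∀ (H : Type) [NormedAddCommGroup H] [InnerProductSpace ℝ H] [CompleteSpace H]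
      (T : TransRep d H) (u : H) (e : E d) (_ : ‖e‖ = 1) (ρ l : ℕ → ℝ),
      (∀ j, 0 < ρ j) → (∀ j, 0 < l j) → (∀ j < J, ρ j ≤ δ * l j) →
      (∀ j < J, l j ≤ δ * ρ (j + 1)) →
      ∃ j < J, (∀ c : E d, l j / C ≤ ‖c‖ → ‖c‖ ≤ C * l j →
        |⟪T.S c u, u⟫ - ‖T.S (ρ (j + 1) • e) u‖ ^ 2| ≤ ε * ‖u‖ ^ 2 ∧
        |⟪T.S c u, T.S (ρ (j + 1) • e) (T.S (ρ (j + 1) • e) u)⟫ -
          ‖T.S (ρ (j + 1) • e) u‖ ^ 2| ≤ ε * ‖u‖ ^ 2) ∧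
        ∀ v : E d, ‖v‖ ≤ C * l j →
          ‖T.τ v (T.S (ρ (j + 1) • e) (T.S (ρ (j + 1) • e) u))
            - T.S (ρ (j + 1) • e) (T.S (ρ (j + 1) • e) u)‖ ≤ ε * ‖u‖ := by
  -- the parameters
  have hC0 : 0 < C := by linarith
  obtain ⟨ε₁, hε₁, hε₁1, hε₁ε⟩ : ∃ ε₁ : ℝ, 0 < ε₁ ∧ ε₁ ≤ 1 ∧ ε₁ ≤ ε :=
    ⟨min ε 1, lt_min hε one_pos, min_le_right _ _, min_le_left _ _⟩
  obtain ⟨η, hη, hηe, hηe'⟩ : ∃ η : ℝ, 0 < η ∧ 5 * η + √(3 * η) ≤ ε ∧ η ≤ ε := by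
    refine ⟨ε₁ ^ 2 / 100, by positivity, ?_, by nlinarith⟩
    have h1 : √(3 * (ε₁ ^ 2 / 100)) ≤ ε₁ / 5 := by
      rw [show ε₁ / 5 = √((ε₁ / 5) ^ 2) from (Real.sqrt_sq (by positivity)).symm]
      apply Real.sqrt_le_sqrt
      nlinarith [sq_nonneg ε₁]
    nlinarith
  obtain ⟨δa, hδa, Ha⟩ := decay hd η hη
  obtain ⟨δb, hδb, Hb⟩ := decay' hd η hη
  obtain ⟨δ₀, hδ₀, hδ₀a, hδ₀b⟩ : ∃ δ₀ : ℝ, 0 < δ₀ ∧ δ₀ ≤ δa ∧ δ₀ ≤ δb :=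
    ⟨min δa δb, lt_min hδa hδb, min_le_left _ _, min_le_right _ _⟩
  obtain ⟨δ, hδ, hδ1, hδC, hδδ⟩ : ∃ δ : ℝ, 0 < δ ∧ δ ≤ 1 ∧ C * δ ≤ δ₀ ∧ δ ≤ δ₀ := by
    refine ⟨min (δ₀ / C) (min δ₀ 1), lt_min (by positivity) (lt_min hδ₀ one_pos),
      (min_le_right _ _).trans (min_le_right _ _), ?_,
      (min_le_right _ _).trans (min_le_left _ _)⟩
    calc C * min (δ₀ / C) (min δ₀ 1) ≤ C * (δ₀ / C) :=
          mul_le_mul_of_nonneg_left (min_le_left _ _) hC0.le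
      _ = δ₀ := by field_simp
  obtain ⟨J, hJ⟩ := exists_nat_ge (1 / η)
  refine ⟨δ, hδ, J + 1, ?_⟩
  intro H _ _ _ T u e he ρ l hρ hl hρl hlρ
  have hnρ : ∀ j, ‖ρ j • e‖ = ρ j := fun j => by
    rw [norm_smul, he, mul_one, Real.norm_eq_abs, abs_of_pos (hρ j)]
  obtain ⟨j, hj, hqj⟩ := scale_pigeon (fun j => ‖T.S (ρ j • e) u‖ ^ 2) η (‖u‖ ^ 2) hη
    (by positivity) (fun j => by positivity) (fun j => by
      have := T.norm_S_le (ρ j • e) u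
      gcongr) (J + 1) (by omega) (by
      push_cast
      have := (div_le_iff₀ hη).1 hJ
      nlinarith)
  have r1 := hρl j hj
  have r2 := hlρ j hj
  have hρ1 := hρ (j + 1)
  refine ⟨j, hj, ?_, ?_⟩
  · intro c hc1 hc2
    have hc1' : l j ≤ C * ‖c‖ := by
      rw [div_le_iff₀ hC0] at hc1; linarith
    have k1 : ‖ρ j • e‖ ≤ δb * ‖c‖ := by
      rw [hnρ]
      calc ρ j ≤ δ * l j := r1
        _ ≤ δ * (C * ‖c‖) := mul_le_mul_of_nonneg_left hc1' hδ.le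
        _ = (C * δ) * ‖c‖ := by ring
        _ ≤ δb * ‖c‖ := mul_le_mul_of_nonneg_right (hδC.trans hδ₀b) (norm_nonneg _)
    have k2 : ‖c‖ ≤ δb * ‖ρ (j + 1) • e‖ := by
      rw [hnρ]
      calc ‖c‖ ≤ C * l j := hc2
        _ ≤ C * (δ * ρ (j + 1)) := mul_le_mul_of_nonneg_left r2 hC0.le
        _ = (C * δ) * ρ (j + 1) := by ring
        _ ≤ δb * ρ (j + 1) := mul_le_mul_of_nonneg_right (hδC.trans hδ₀b) hρ1.le
    have k3 : ‖ρ j • e‖ ≤ δb * ‖ρ (j + 1) • e‖ := by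
      rw [hnρ, hnρ]
      calc ρ j ≤ δ * l j := r1
        _ ≤ δ * (δ * ρ (j + 1)) := mul_le_mul_of_nonneg_left r2 hδ.le
        _ ≤ 1 * (δ * ρ (j + 1)) := mul_le_mul_of_nonneg_right hδ1 (by positivity)
        _ = δ * ρ (j + 1) := one_mul _
        _ ≤ δb * ρ (j + 1) := mul_le_mul_of_nonneg_right (hδδ.trans hδ₀b) hρ1.le
    obtain ⟨g1, g2⟩ := scale_core (T.S c) (T.S (ρ j • e)) (T.S (ρ (j + 1) • e))
      (T.S_sub c) (T.S_sub _) (T.S_smul' _) (T.norm_S_le c) (T.norm_S_le _) (T.norm_S_le _)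
      (T.inner_S _) (T.inner_S _) (fun w => T.S_comm _ _ w) u η hη.le
      (fun w => Hb H T w c (ρ j • e) k1) (fun w => Hb H T w (ρ (j + 1) • e) c k2)
      (fun w => Hb H T w (ρ (j + 1) • e) (ρ j • e) k3) hqj
    exact ⟨g1.trans (mul_le_mul_of_nonneg_right hηe (by positivity)),
      g2.trans (mul_le_mul_of_nonneg_right hηe' (by positivity))⟩
  · intro v hv
    have k4 : ‖v‖ ≤ δa * ‖ρ (j + 1) • e‖ := by
      rw [hnρ]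
      calc ‖v‖ ≤ C * l j := hv
        _ ≤ C * (δ * ρ (j + 1)) := mul_le_mul_of_nonneg_left r2 hC0.le
        _ = (C * δ) * ρ (j + 1) := by ring
        _ ≤ δa * ρ (j + 1) := mul_le_mul_of_nonneg_right (hδC.trans hδ₀a) hρ1.le
    have h := Ha H T (T.S (ρ (j + 1) • e) u) (ρ (j + 1) • e) v k4
    rw [T.S_sub, ← T.τ_S] at h
    rw [norm_sub_rev]
    refine h.trans ?_
    exact mul_le_mul hηe' (T.norm_S_le _ _) (norm_nonneg _) hε.le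

end Pool.Agent.H16.Simp
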