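import Pool.Agent.H16.Simp.DataA
import Pool.Agent.H16.Simp.Scale

/-!
# Existence of good data
-/

open MeasureTheory Measure Metric Filter Topology
open scoped RealInnerProductSpace

set_option linter.unusedSectionVars false

namespace Pool.Agent.H16.Simp

variable {d : ℕ}

theorem box_eq (T : ℝ) :
    box d T = (fun x : E d => (x : Fin d → ℝ)) ⁻¹' (Set.Icc (fun _ => -T) (fun _ => T)) := by
  ext x
  simp only [box, Set.mem_setOf_eq, Set.mem_preimage, Set.mem_Icc, Pi.le_def, abs_le]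
  exact ⟨fun h => ⟨fun i => (h i).1, fun i => (h i).2⟩, fun h i => ⟨h.1 i, h.2 i⟩⟩

theorem measurableSet_box (T : ℝ) : MeasurableSet (box d T) := by
  rw [box_eq]
  exact (PiLp.volume_preserving_ofLp (Fin d)).measurable measurableSet_Icc

theorem volume_box (T : ℝ) (hT : 0 ≤ T) : volume (box d T) = ENNReal.ofReal ((2 * T) ^ d) := by
  rw [box_eq]
  have h := (PiLp.volume_preserving_ofLp (Fin d)).measure_preimage
    (s := Set.Icc (fun _ => -T) (fun _ => T)) measurableSet_Icc.nullMeasurableSet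
  rw [show (fun x : E d => (x : Fin d → ℝ)) ⁻¹' (Set.Icc (fun _ => -T) (fun _ => T)) =
    (@WithLp.ofLp 2 (Fin d → ℝ)) ⁻¹' (Set.Icc (fun _ => -T) (fun _ => T)) from rfl, h,
    Real.volume_Icc_pi]
  simp only [sub_neg_eq_add, Finset.prod_const, Finset.card_univ, Fintype.card_fin]
  rw [← two_mul, ENNReal.ofReal_pow (by positivity)]

/-- The scales. -/
theorem exists_seq (Bad : ℝ → Prop) (hbad : ∀ l₀ : ℝ, ∃ l, l₀ ≤ l ∧ Bad l) (δ : ℝ) (hδ : 0 < δ) :
    ∃ ρ l : ℕ → ℝ, (∀ j, 0 < ρ j) ∧ (∀ j, 0 < l j) ∧ (∀ j, ρ j ≤ δ * l j) ∧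
      (∀ j, l j ≤ δ * ρ (j + 1)) ∧ ∀ j, Bad (l j) := by
  choose nx hnx1 hnx2 using hbad
  let ρ : ℕ → ℝ := fun j => Nat.rec 1 (fun _ r => nx (r / δ) / δ) j
  have hρs : ∀ j, ρ (j + 1) = nx (ρ j / δ) / δ := fun j => rfl
  have hρ : ∀ j, 0 < ρ j := by
    intro j
    induction j with
    | zero => exact one_pos
    | succ j ih =>
      rw [hρs]
      have h1 : 0 < ρ j / δ := by positivity
      have h2 := hnx1 (ρ j / δ)
      have h3 : 0 < nx (ρ j / δ) := lt_of_lt_of_le h1 h2
      positivity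
  refine ⟨ρ, fun j => nx (ρ j / δ), hρ, ?_, ?_, ?_, fun j => hnx2 _⟩
  · intro j
    have h1 : 0 < ρ j / δ := div_pos (hρ j) hδ
    exact lt_of_lt_of_le h1 (hnx1 _)
  · intro j
    have h2 := hnx1 (ρ j / δ)
    rwa [div_le_iff₀' hδ] at h2
  · intro j
    rw [hρs]
    apply le_of_eq
    field_simp

theorem exists_good (hd : 2 ≤ d) (A : Set (E d)) (hA : MeasurableSet A) (θ : ℝ) (hθ0 : 0 ≤ θ)
    (hθ : θ < upperDensity A) (Bad : ℝ → Prop) (hbad : ∀ l₀ : ℝ, ∃ l, l₀ ≤ l ∧ Bad l)
    (C : ℝ) (hC : 1 ≤ C) (ε : ℝ) (hε : 0 < ε) :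
    ∃ (f g : E d → ℝ) (l V : ℝ), Bad l ∧ Good d C ε f g l V ∧
      (∀ x, f x = 0 ∨ (f x = 1 ∧ x ∈ A)) ∧ θ * V ≤ ∫ x, f x := by
  classical
  obtain ⟨δ, hδ, J, hJ⟩ := exists_scale hd C hC (min ε 1) (lt_min hε one_pos)
  obtain ⟨ρ, l, hρ, hl, h1, h2, h3⟩ := exists_seq Bad hbad δ hδ
  set M : ℝ := ∑ j ∈ Finset.range (J + 1), ρ j with hM
  have hMle : ∀ j < J, ρ (j + 1) ≤ M := by
    intro j hj
    exact Finset.single_le_sum (f := ρ) (fun i _ => (hρ i).le) (Finset.mem_range.mpr (by omega))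
  have hM0 : 0 ≤ M := Finset.sum_nonneg (fun i _ => (hρ i).le)
  -- the size of the box
  have hfreq := frequently_lt_of_lt_limsup (f := atTop)
    (u := fun T : ℝ => (volume (A ∩ box d T)).toReal / (volume (box d T)).toReal)
    (isCoboundedUnder_le_of_le atTop (x := 0) (fun T => by positivity)) hθ
  have hlim : Tendsto (fun T : ℝ => (1 + 2 * M / T) ^ d) atTop (𝓝 1) := by
    have h4 : Tendsto (fun T : ℝ => 1 + 2 * M / T) atTop (𝓝 (1 + 0)) :=
      tendsto_const_nhds.add (tendsto_const_nhds.div_atTop tendsto_id)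
    have h5 := h4.pow d
    simpa using h5
  have hev1 : ∀ᶠ T : ℝ in atTop, (1 + 2 * M / T) ^ d < 1 + ε :=
    hlim.eventually_lt_const (by linarith)
  obtain ⟨T, hT1, hT2, hT3⟩ := (hfreq.and_eventually (hev1.and (eventually_gt_atTop 0))).exists
  -- the function
  set S : Set (E d) := A ∩ box d T with hS
  have hSm : MeasurableSet S := hA.inter (measurableSet_box T)
  set V : ℝ := (2 * T) ^ d with hV
  have hVpos : 0 < V := by positivity
  have hvb : volume (box d T) = ENNReal.ofReal V := volume_box T hT3.le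
  have hSfin : volume S < ⊤ := lt_of_le_of_lt (measure_mono Set.inter_subset_right)
    (by rw [hvb]; exact ENNReal.ofReal_lt_top)
  set f : E d → ℝ := S.indicator (fun _ => 1) with hf
  have hfm : Measurable f := measurable_const.indicator hSm
  have hf0 : ∀ x, 0 ≤ f x := fun x => Set.indicator_nonneg (fun _ _ => zero_le_one) x
  have hf1 : ∀ x, f x ≤ 1 := fun x => Set.indicator_le_self' (fun _ _ => zero_le_one) x
  have hfi : Integrable f := (integrable_indicator_iff hSm).mpr
    (integrableOn_const hSfin.ne)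
  have hfint : ∫ x, f x = (volume S).toReal := by
    rw [hf, integral_indicator_const _ hSm]
    simp [Measure.real]
  have habs : ∀ x, |f x| ≤ 1 := fun x => by rw [abs_of_nonneg (hf0 x)]; exact hf1 x
  have hf2 : MemLp f 2 volume := memLp_two_of hfm hfi habs
  have hvbr : (volume (box d T)).toReal = V := by
    rw [hvb, ENNReal.toReal_ofReal hVpos.le]
  have hfV : ∫ x, f x ≤ V := by
    rw [hfint, ← hvbr]
    exact ENNReal.toReal_mono (by rw [hvb]; exact ENNReal.ofReal_ne_top)
      (measure_mono Set.inter_subset_right)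
  -- unit vector
  have hne : Nontrivial (E d) := by
    have : Nonempty (Fin d) := ⟨⟨0, by omega⟩⟩
    infer_instance
  obtain ⟨e, he⟩ := exists_norm_eq (E d) (zero_le_one (α := ℝ))
  obtain ⟨j, hj, hj1, hj2⟩ := hJ (L2 d) (l2Rep d) (hf2.toLp f) e he ρ l hρ hl (fun j _ => h1 j)
    (fun j _ => h2 j)
  have hgood := good_of f hfm hf0 hf1 hfi C ε V (l j) hVpos (hl j) hfV hε (ρ (j + 1) • e)
    (box d (T + 2 * M)) (measurableSet_box _) (by
      rw [volume_box _ (by positivity)]
      apply ENNReal.ofReal_le_ofReal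
      have h6 : (2 * (T + 2 * M)) ^ d = (1 + 2 * M / T) ^ d * V := by
        rw [hV, ← mul_pow]
        congr 1
        field_simp
      rw [h6]
      exact mul_le_mul_of_nonneg_right hT2.le hVpos.le)
    (by
      intro x v hne' hv
      have h7 : x + v ∈ S := by
        by_contra hcon
        exact hne' (Set.indicator_of_notMem hcon _)
      have h8 : ‖v‖ ≤ 2 * M := by
        refine hv.trans ?_
        rw [norm_smul, he, mul_one, Real.norm_of_nonneg (hρ _).le]
        have := hMle j hj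
        linarith
      intro i
      have h9 : |(x + v) i| ≤ T := h7.2 i
      have h10 : |v i| ≤ ‖v‖ := by
        have := EuclideanSpace.norm_eq v
        rw [this]
        apply Real.abs_le_sqrt
        have h11 := Finset.single_le_sum (f := fun k => ‖v k‖ ^ 2)
          (fun k _ => sq_nonneg _) (Finset.mem_univ i)
        simpa using h11
      have h12 : x i = (x + v) i - v i := by simp
      rw [h12]
      calc |(x + v) i - v i| ≤ |(x + v) i| + |v i| := abs_sub _ _
        _ ≤ T + 2 * M := by linarith)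
    hf2 hj1 hj2
  refine ⟨f, dens (ρ (j + 1) • e) f, l j, V, h3 j, hgood, ?_, ?_⟩
  · intro x
    by_cases hx : x ∈ S
    · exact Or.inr ⟨Set.indicator_of_mem hx _, hx.1⟩
    · exact Or.inl (Set.indicator_of_notMem hx _)
  · rw [hfint]
    have h13 := hT1
    rw [hvbr, lt_div_iff₀ hVpos] at h13
    exact h13.le

end Pool.Agent.H16.Simp
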