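import Pool.Agent.H16.Simp.Rot

/-!
# Definitions for the theorem on simplices in sets of upper density larger than 2/5
-/

open MeasureTheory Measure Metric Filter Topology
open scoped RealInnerProductSpace

namespace Pool.Agent.H16.Simp

variable {d : ℕ}

/-- An isometric representation of the translation group on a real inner product space. -/
structure TransRep (d : ℕ) (H : Type) [NormedAddCommGroup H] [InnerProductSpace ℝ H] where
  τ : E d → H →L[ℝ] H
  norm_τ : ∀ v u, ‖τ v u‖ = ‖u‖
  τ_add : ∀ v w u, τ (v + w) u = τ v (τ w u)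
  τ_zero : ∀ u, τ 0 u = u
  cont : ∀ u, Continuous fun v => τ v u

/-- Spherical average. -/
noncomputable def TransRep.S {H : Type} [NormedAddCommGroup H] [InnerProductSpace ℝ H]
    [CompleteSpace H] (T : TransRep d H) (c : E d) (u : H) : H :=
  ∫ R, T.τ (act R c) u ∂(rotHaar d)

/-- A function `f` (the indicator of a piece of the set), its local density `g`, the scale `l` and
the volume `V` of the box. -/
structure Good (d : ℕ) (C ε : ℝ) (f g : E d → ℝ) (l V : ℝ) : Prop where
  V_pos : 0 < V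
  l_pos : 0 < l
  f_meas : Measurable f
  g_meas : Measurable g
  f_nonneg : ∀ x, 0 ≤ f x
  f_le_one : ∀ x, f x ≤ 1
  g_nonneg : ∀ x, 0 ≤ g x
  g_le_one : ∀ x, g x ≤ 1
  f_int : Integrable f
  g_int : Integrable g
  f_mass : ∫ x, f x ≤ V
  int_eq : ∫ x, g x = ∫ x, f x
  supp : ∃ B : Set (E d), MeasurableSet B ∧ volume B ≤ ENNReal.ofReal ((1 + ε) * V) ∧
    ∀ x, x ∉ B → g x = 0
  corr : ∃ q : ℝ, ∫ x, g x ^ 2 ≤ q ∧ ∀ c : E d, 1 / C ≤ ‖c‖ → ‖c‖ ≤ C →
    |(∫ R, (∫ x, f (x + l • act R c) * f x) ∂(rotHaar d)) - q| ≤ ε * V ∧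
    |(∫ R, (∫ x, f (x + l • act R c) * g x) ∂(rotHaar d)) - q| ≤ ε * V
  smooth : ∀ v : E d, ‖v‖ ≤ C → ∫ x, (g (x + l • v) - g x) ^ 2 ≤ ε * V

/-- The cube `[-T, T] ^ d`. -/
def box (d : ℕ) (T : ℝ) : Set (E d) := {x | ∀ i, |x i| ≤ T}

/-- Upper density. -/
noncomputable def upperDensity (A : Set (E d)) : ℝ :=
  limsup (fun T : ℝ => (volume (A ∩ box d T)).toReal / (volume (box d T)).toReal) atTop

/-- Two points and a family, as one family. -/
def fam {K : Type} (u v : E d) (p : K → E d) : Option (Option K) → E d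
  | none => u
  | some none => v
  | some (some k) => p k

/-- One point and a family, as one family. -/
def fam1 {K : Type} (u : E d) (p : K → E d) : Option K → E d
  | none => u
  | some k => p k

end Pool.Agent.H16.Simp
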