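import Pool.Agent.H16.Simp.Defs

/-!
# Geometry of the simplex
-/

open MeasureTheory Measure Metric Filter Topology
open scoped RealInnerProductSpace

namespace Pool.Agent.H16.Simp

variable {d : ℕ}

namespace Geom

/-- The reflection in the hyperplane orthogonal to `a`. -/
theorem act_refl' (a v : E d) : act (ofIso (Submodule.reflection (ℝ ∙ a)ᗮ)) v =
    v - (2 * (⟪a, v⟫ / ‖a‖ ^ 2)) • a := by
  rw [act_ofIso, Submodule.reflection_orthogonal_apply, Submodule.reflection_singleton_apply]
  simp only [RCLike.ofReal_real_eq_id, id_eq]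
  rw [two_smul, two_mul, add_smul]
  abel

/-- Affine functionals and vanishing combinations. -/
theorem sum_aff {ι : Type} [Fintype ι] (q : ι → E d) (w : ι → ℝ) (h0 : ∑ x, w x = 0)
    (h1 : ∑ x, w x • q x = 0) (φ : E d →ᵃ[ℝ] ℝ) : ∑ x, w x * φ (q x) = 0 := by
  have h2 : ∀ v, φ v = φ.linear v + φ 0 := fun v => by
    have := congrFun (AffineMap.decomp φ) v
    simpa using this
  have h3 : ∑ x, w x * φ.linear (q x) = 0 := by
    have := congrArg φ.linear h1
    rw [_root_.map_sum, _root_.map_zero] at this
    simpa [map_smul, smul_eq_mul] using this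
  calc ∑ x, w x * φ (q x) = ∑ x, (w x * φ.linear (q x) + w x * φ 0) := by
        refine Finset.sum_congr rfl fun x _ => ?_
        rw [h2 (q x)]; ring
    _ = 0 := by rw [Finset.sum_add_distrib, h3, ← Finset.sum_mul, h0]; ring

/-- Criterion for affine independence. -/
theorem indep_of {ι : Type} [Fintype ι] (q : ι → E d)
    (h : ∀ w : ι → ℝ, ∑ x, w x = 0 → ∑ x, w x • q x = 0 → ∀ x, w x = 0) :
    AffineIndependent ℝ q := by
  rw [affineIndependent_iff_of_fintype]
  intro w hw0 hw
  refine h w hw0 ?_
  rw [Finset.weightedVSub_eq_weightedVSubOfPoint_of_sum_eq_zero _ _ _ hw0 0,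
    Finset.weightedVSubOfPoint_apply] at hw
  simpa using hw

/-- Subfamilies. -/
theorem indep_fam {P : Fin (d + 1) → E d} (hP : AffineIndependent ℝ P) {K : Type}
    (f : K → Fin (d + 1)) (hf : Function.Injective f) (i j : Fin (d + 1)) (hij : i ≠ j)
    (hi : ∀ k, f k ≠ i) (hj : ∀ k, f k ≠ j) :
    AffineIndependent ℝ (fam (P i) (P j) (fun k => P (f k))) := by
  let g : Option (Option K) → Fin (d + 1) := fun x => match x with
    | none => i
    | some none => j
    | some (some k) => f k
  have hg : Function.Injective g := by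
    intro x y hxy
    match x, y, hxy with
    | none, none, _ => rfl
    | none, some none, h => exact absurd h hij
    | none, some (some k), h => exact absurd h.symm (hi k)
    | some none, none, h => exact absurd h.symm hij
    | some none, some none, _ => rfl
    | some none, some (some k), h => exact absurd h.symm (hj k)
    | some (some k), none, h => exact absurd h (hi k)
    | some (some k), some none, h => exact absurd h (hj k)
    | some (some k), some (some k'), h => rw [hf h]
  have h := hP.comp_embedding ⟨g, hg⟩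
  have heq : fam (P i) (P j) (fun k => P (f k)) = P ∘ g := by
    funext x
    match x with
    | none => rfl
    | some none => rfl
    | some (some k) => rfl
  rw [heq]
  exact h

theorem indep_fam1 {P : Fin (d + 1) → E d} (hP : AffineIndependent ℝ P) {K : Type}
    (f : K → Fin (d + 1)) (hf : Function.Injective f) (i : Fin (d + 1))
    (hi : ∀ k, f k ≠ i) :
    AffineIndependent ℝ (fam1 (P i) (fun k => P (f k))) := by
  let g : Option K → Fin (d + 1) := fun x => match x with
    | none => i
    | some k => f k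
  have hg : Function.Injective g := by
    intro x y hxy
    match x, y, hxy with
    | none, none, _ => rfl
    | none, some k, h => exact absurd h.symm (hi k)
    | some k, none, h => exact absurd h (hi k)
    | some k, some k', h => rw [hf h]
  have h := hP.comp_embedding ⟨g, hg⟩
  have heq : fam1 (P i) (fun k => P (f k)) = P ∘ g := by
    funext x
    match x with
    | none => rfl
    | some k => rfl
  rw [heq]
  exact h

/-- The image of a family under an isometry fixing all members but the second one. -/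
theorem indep_map (U : Rot d) (t u v v' : E d) {K : Type} (p : K → E d)
    (h : AffineIndependent ℝ (fam u v p)) (hu : t + act U u = u) (hv : t + act U v = v')
    (hp : ∀ k, t + act U (p k) = p k) : AffineIndependent ℝ (fam u v' p) := by
  let f : E d →ᵃ[ℝ] E d := ((toIso U).toLinearEquiv.toLinearMap).toAffineMap +
    AffineMap.const ℝ (E d) t
  have hf : ∀ x, f x = t + act U x := by
    intro x
    rw [add_comm]
    rfl
  have hinj : Function.Injective f := by
    intro x y hxy
    rw [hf, hf] at hxy
    exact (toIso U).injective (add_left_cancel hxy)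
  have h1 := h.map' f hinj
  have heq : fam u v' p = f ∘ fam u v p := by
    funext x
    match x with
    | none => exact (((hf u).trans hu)).symm
    | some none => exact ((hf v).trans hv).symm
    | some (some k) => exact ((hf (p k)).trans (hp k)).symm
  rw [heq]
  exact h1

end Geom

open Geom

theorem simplex_geom (hd : 2 ≤ d) (P : Fin (d + 1) → E d) (hP : AffineIndependent ℝ P) :
    ∃ (i j a : Fin (d + 1)), i ≠ j ∧ i ≠ a ∧ j ≠ a ∧ ∃ (w t : E d) (U : Rot d),
      (∀ k, k ≠ a → t + act U (P k) = P k) ∧ t + act U (P a) = w ∧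
      let p : {k : Fin (d + 1) // k ≠ i ∧ k ≠ j ∧ k ≠ a} → E d := fun k => P k
      AffineIndependent ℝ (fam1 (P i) p) ∧ AffineIndependent ℝ (fam1 (P j) p) ∧
      AffineIndependent ℝ (fam (P i) (P j) p) ∧ AffineIndependent ℝ (fam (P i) (P a) p) ∧
      AffineIndependent ℝ (fam (P j) (P a) p) ∧ AffineIndependent ℝ (fam (P i) w p) ∧
      AffineIndependent ℝ (fam (P j) w p) ∧ AffineIndependent ℝ (fam (P a) w p) := by
  classical
  have htop : affineSpan ℝ (Set.range P) = ⊤ := by
    rw [hP.affineSpan_eq_top_iff_card_eq_finrank_add_one]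
    simp
  let B : AffineBasis (Fin (d + 1)) ℝ (E d) := ⟨P, hP, htop⟩
  have hB : ∀ k, B k = P k := fun _ => rfl
  obtain ⟨a, ha⟩ : ∃ a : Fin (d + 1), a = Fin.last d := ⟨_, rfl⟩
  obtain ⟨o, ho⟩ : ∃ o : Fin (d + 1), o ≠ a := ⟨⟨0, by omega⟩, by
    rw [ha]; intro h; have := congrArg Fin.val h; simp at this; omega⟩
  -- the normal vector
  obtain ⟨n, hn⟩ : ∃ n : E d, ∀ v, ⟪n, v⟫ = (B.coord a).linear v := by
    refine ⟨(InnerProductSpace.toDual ℝ (E d)).symm
      (LinearMap.toContinuousLinearMap (B.coord a).linear), fun v => ?_⟩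
    rw [InnerProductSpace.toDual_symm_apply]
    rfl
  have hsub : ∀ x y : E d, ⟪n, x - y⟫ = B.coord a x - B.coord a y := by
    intro x y
    rw [hn]
    have := (B.coord a).linearMap_vsub x y
    simpa using this
  have hna : ⟪n, P a - P o⟫ = 1 := by
    rw [hsub, ← hB, ← hB, B.coord_apply_eq, B.coord_apply_ne ho.symm]
    simp
  have hnk : ∀ k, k ≠ a → ⟪n, P k - P o⟫ = 0 := by
    intro k hk
    rw [hsub, ← hB, ← hB, B.coord_apply_ne (Ne.symm hk), B.coord_apply_ne ho.symm]
    simp
  have hn0 : n ≠ 0 := by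
    intro h
    rw [h, inner_zero_left] at hna
    exact zero_ne_one hna
  have hN : 0 < ‖n‖ ^ 2 := by
    have := norm_pos_iff.2 hn0
    positivity
  obtain ⟨c, hc⟩ : ∃ c : E d, c = P a - (1 / ‖n‖ ^ 2) • n := ⟨_, rfl⟩
  obtain ⟨w, hw⟩ : ∃ w : E d, w = P a - (2 / ‖n‖ ^ 2) • n := ⟨_, rfl⟩
  -- coordinates
  have hca : B.coord a c = 0 := by
    have h1 := hsub c (P a)
    rw [hc, sub_sub_cancel_left, inner_neg_right, inner_smul_right,
      real_inner_self_eq_norm_sq, ← hc] at h1
    have h2 : B.coord a (P a) = 1 := by rw [← hB]; exact B.coord_apply_eq a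
    rw [h2] at h1
    have h3 : 1 / ‖n‖ ^ 2 * ‖n‖ ^ 2 = 1 := by field_simp
    linarith
  have hwc : ∀ φ : E d →ᵃ[ℝ] ℝ, φ w = 2 * φ c - φ (P a) := by
    intro φ
    have h2 : ∀ v, φ v = φ.linear v + φ 0 := fun v => by
      have := congrFun (AffineMap.decomp φ) v
      simpa using this
    have h3 : φ.linear w + φ.linear (P a) = φ.linear c + φ.linear c := by
      rw [← map_add, ← map_add]
      congr 1
      rw [hw, hc]
      have : (2 / ‖n‖ ^ 2) • n = (1 / ‖n‖ ^ 2) • n + (1 / ‖n‖ ^ 2) • n := by
        rw [← add_smul]; congr 1; ring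
      rw [this]
      abel
    rw [h2 w, h2 c, h2 (P a)]
    linarith
  obtain ⟨i, hi⟩ : ∃ i, B.coord i c ≠ 0 := by
    by_contra hcon
    push Not at hcon
    have := B.sum_coord_apply_eq_one c
    rw [Finset.sum_eq_zero (fun k _ => hcon k)] at this
    exact zero_ne_one this
  have hia : i ≠ a := by
    intro h
    rw [h] at hi
    exact hi hca
  obtain ⟨j, hji, hja⟩ : ∃ j : Fin (d + 1), j ≠ i ∧ j ≠ a := by
    have hcard : ({i, a} : Finset (Fin (d + 1))).card < (Finset.univ : Finset (Fin (d + 1))).card := by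
      refine lt_of_le_of_lt (Finset.card_le_two) ?_
      rw [Finset.card_univ, Fintype.card_fin]
      omega
    obtain ⟨j, -, hj⟩ := Finset.exists_mem_notMem_of_card_lt_card hcard
    refine ⟨j, ?_, ?_⟩
    · rintro rfl; exact hj (by simp)
    · rintro rfl; exact hj (by simp)
  obtain ⟨U, hU⟩ : ∃ U : Rot d, ∀ v, act U v = v - (2 * (⟪n, v⟫ / ‖n‖ ^ 2)) • n :=
    ⟨_, act_refl' n⟩
  obtain ⟨t, ht⟩ : ∃ t : E d, t = (2 * (⟪n, P o⟫ / ‖n‖ ^ 2)) • n := ⟨_, rfl⟩
  have htU : ∀ v, t + act U v = v - (2 * (⟪n, v - P o⟫ / ‖n‖ ^ 2)) • n := by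
    intro v
    rw [ht, hU, inner_sub_right, sub_div, mul_sub, sub_smul]
    abel
  have hfix : ∀ k, k ≠ a → t + act U (P k) = P k := by
    intro k hk
    rw [htU, hnk k hk]
    simp
  have hwa : t + act U (P a) = w := by
    rw [htU, hna, hw]
    congr 2
    ring
  refine ⟨i, j, a, hji.symm, hia, hja, w, t, U, hfix, hwa, ?_⟩
  intro p
  have hinj : Function.Injective (fun k : {k : Fin (d + 1) // k ≠ i ∧ k ≠ j ∧ k ≠ a} => k.val) :=
    Subtype.val_injective
  have hpi : ∀ k : {k : Fin (d + 1) // k ≠ i ∧ k ≠ j ∧ k ≠ a}, k.val ≠ i := fun k => k.2.1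
  have hpj : ∀ k : {k : Fin (d + 1) // k ≠ i ∧ k ≠ j ∧ k ≠ a}, k.val ≠ j := fun k => k.2.2.1
  have hpa : ∀ k : {k : Fin (d + 1) // k ≠ i ∧ k ≠ j ∧ k ≠ a}, k.val ≠ a := fun k => k.2.2.2
  have hIA := indep_fam hP _ hinj i a hia hpi hpa
  have hJA := indep_fam hP _ hinj j a hja hpj hpa
  refine ⟨indep_fam1 hP _ hinj i hpi, indep_fam1 hP _ hinj j hpj,
    indep_fam hP _ hinj i j hji.symm hpi hpj, hIA, hJA, ?_, ?_, ?_⟩
  · exact indep_map U t _ _ _ _ hIA (hfix i hia) hwa (fun k => hfix _ (hpa k))
  · exact indep_map U t _ _ _ _ hJA (hfix j hja) hwa (fun k => hfix _ (hpa k))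
  · refine indep_of _ fun x hx0 hx1 => ?_
    have hco : ∀ m k, B.coord m (P k) = if k = m then 1 else 0 := by
      intro m k
      rw [← hB, B.coord_apply]
      by_cases h : m = k
      · simp [h]
      · rw [if_neg h, if_neg (Ne.symm h)]
    have key : ∀ φ : E d →ᵃ[ℝ] ℝ, x none * φ (P a) + (x (some none) * φ w +
        ∑ k, x (some (some k)) * φ (p k)) = 0 := by
      intro φ
      have := sum_aff _ x hx0 hx1 φ
      rw [Fintype.sum_option, Fintype.sum_option] at this
      exact this
    have k1 := key (B.coord a)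
    rw [hwc, hca, hco a a, if_pos rfl, Finset.sum_eq_zero (fun k _ => by
      show x (some (some k)) * B.coord a (P k.val) = 0
      rw [hco, if_neg (hpa k), mul_zero])] at k1
    have k2 := key (B.coord i)
    rw [hwc, hco i a, if_neg hia.symm, Finset.sum_eq_zero (fun k _ => by
      show x (some (some k)) * B.coord i (P k.val) = 0
      rw [hco, if_neg (hpi k), mul_zero])] at k2
    have hx2 : x (some none) = 0 := by
      have : x (some none) * B.coord i c = 0 := by linarith
      rcases mul_eq_zero.1 this with h | h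
      · exact h
      · exact absurd h hi
    have hx3 : x none = 0 := by rw [hx2] at k1; linarith
    intro y
    match y with
    | none => exact hx3
    | some none => exact hx2
    | some (some k) =>
      have k3 := key (B.coord k.val)
      rw [hx2, hx3, Finset.sum_eq_single k] at k3
      · have : B.coord k.val (p k) = 1 := by
          show B.coord k.val (P k.val) = 1
          rw [hco, if_pos rfl]
        rw [this] at k3
        linarith
      · intro b _ hbk
        show x (some (some b)) * B.coord k.val (P b.val) = 0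
        rw [hco, if_neg (fun h => hbk (Subtype.ext h)), mul_zero]
      · intro h
        exact absurd (Finset.mem_univ k) h

end Pool.Agent.H16.Simp
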