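import Pool.Agent.H16.Simp.Refl

/-!
# Independence of at most d points (law of large numbers)
-/

open MeasureTheory Measure Metric Filter Topology
open scoped RealInnerProductSpace

namespace Pool.Agent.H16.Simp

variable {d : ℕ}

/-- The product measure. -/
noncomputable abbrev muRE (d : ℕ) : Measure (Rot d × E d) := (rotHaar d).prod volume

/-- The shifted function. -/
noncomputable def fb (f : E d → ℝ) (l : ℝ) (b : E d) (z : Rot d × E d) : ℝ :=
  f (z.2 + l • act z.1 b)

theorem continuous_shift (l : ℝ) (b : E d) :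
    Continuous (fun z : Rot d × E d => z.2 + l • act z.1 b) := by
  have h : Continuous (fun z : Rot d × E d => act z.1 b) :=
    continuous_act.comp (continuous_fst.prodMk continuous_const)
  exact continuous_snd.add (h.const_smul l)

theorem mp_shift (l : ℝ) (b : E d) :
    MeasurePreserving (fun z : Rot d × E d => (z.1, z.2 + l • act z.1 b)) (muRE d) (muRE d) := by
  have := MeasurePreserving.skew_product (μa := rotHaar d) (μb := rotHaar d)
    (μc := (volume : Measure (E d))) (μd := (volume : Measure (E d)))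
    (MeasurePreserving.id (rotHaar d))
    (g := fun (R : Rot d) (x : E d) => x + l • act R b)
    (by
      exact (continuous_shift l b).measurable)
    (by
      refine Eventually.of_forall fun R => ?_
      exact (measurePreserving_add_right volume (l • act R b)).map_eq)
  exact this

theorem mp_right (U : Rot d) :
    MeasurePreserving (fun z : Rot d × E d => (z.1 * U, z.2)) (muRE d) (muRE d) :=
  (mp_mul_right U).prod (MeasurePreserving.id volume)

theorem mp_integral {α : Type*} [MeasurableSpace α] {μ : Measure α} {T : α → α}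
    (h : MeasurePreserving T μ μ) (F : α → ℝ) (hF : Measurable F) :
    ∫ z, F (T z) ∂μ = ∫ z, F z ∂μ := by
  have h1 : ∫ z, F z ∂(map T μ) = ∫ z, F (T z) ∂μ :=
    integral_map h.measurable.aemeasurable hF.aestronglyMeasurable
  rw [h.map_eq] at h1
  exact h1.symm

theorem integral_shift (l : ℝ) (b : E d) (F : Rot d × E d → ℝ) (hF : Measurable F) :
    ∫ z, F (z.1, z.2 + l • act z.1 b) ∂(muRE d) = ∫ z, F z ∂(muRE d) :=
  mp_integral (mp_shift l b) F hF

theorem integral_right (U : Rot d) (F : Rot d × E d → ℝ) (hF : Measurable F) :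
    ∫ z, F (z.1 * U, z.2) ∂(muRE d) = ∫ z, F z ∂(muRE d) :=
  mp_integral (mp_right U) F hF

theorem fb_meas {f : E d → ℝ} (hf : Measurable f) (l : ℝ) (b : E d) : Measurable (fb f l b) :=
  hf.comp (continuous_shift l b).measurable

theorem fb_zero (f : E d → ℝ) (l : ℝ) (z : Rot d × E d) : fb f l 0 z = f z.2 := by
  simp [fb, act_zero]

theorem snd_int {f : E d → ℝ} (hf : Integrable f) : Integrable (fun z : Rot d × E d => f z.2)
    (muRE d) := hf.comp_snd _

theorem integral_snd (f : E d → ℝ) : ∫ z : Rot d × E d, f z.2 ∂(muRE d) = ∫ x, f x := by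
  rw [integral_fun_snd]; simp

theorem fb_int {f : E d → ℝ} (hf : Integrable f) (l : ℝ) (b : E d) :
    Integrable (fb f l b) (muRE d) := by
  exact (mp_shift l b).integrable_comp_of_integrable (snd_int hf)

theorem integral_fb {f : E d → ℝ} (hf : Measurable f) (l : ℝ) (b : E d) :
    ∫ z, fb f l b z ∂(muRE d) = ∫ x, f x := by
  rw [← integral_snd f]
  exact integral_shift l b (fun z => f z.2) (hf.comp measurable_snd)

/-- Cauchy-Schwarz in the form needed. -/
theorem cs {α : Type*} [MeasurableSpace α] {μ : Measure α} {F D : α → ℝ} {V t : ℝ}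
    (ht : 0 < t) (hF2 : Integrable (fun z => F z ^ 2) μ)
    (hD2 : Integrable (fun z => D z ^ 2) μ) (hFV : ∫ z, F z ^ 2 ∂μ ≤ V)
    (hDV : ∫ z, D z ^ 2 ∂μ ≤ t ^ 2 * V) : |∫ z, F z * D z ∂μ| ≤ t * V := by
  have h1 : ∀ z, |F z * D z| ≤ (t / 2) * F z ^ 2 + (1 / (2 * t)) * D z ^ 2 := by
    intro z
    have h2 : (t / 2) * F z ^ 2 + (1 / (2 * t)) * D z ^ 2 - |F z * D z| =
        (1 / (2 * t)) * (t * |F z| - |D z|) ^ 2 := by
      rw [abs_mul]
      field_simp
      rw [← sq_abs (F z), ← sq_abs (D z)]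
      ring
    have h3 : 0 ≤ (1 / (2 * t)) * (t * |F z| - |D z|) ^ 2 := by positivity
    linarith
  calc |∫ z, F z * D z ∂μ| ≤ ∫ z, |F z * D z| ∂μ := abs_integral_le_integral_abs
    _ ≤ ∫ z, ((t / 2) * F z ^ 2 + (1 / (2 * t)) * D z ^ 2) ∂μ := by
        apply integral_mono_of_nonneg
        · exact Eventually.of_forall fun z => abs_nonneg _
        · exact (hF2.const_mul _).add (hD2.const_mul _)
        · exact Eventually.of_forall h1
    _ = (t / 2) * ∫ z, F z ^ 2 ∂μ + (1 / (2 * t)) * ∫ z, D z ^ 2 ∂μ := by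
        rw [integral_add (hF2.const_mul _) (hD2.const_mul _), integral_const_mul,
          integral_const_mul]
    _ ≤ (t / 2) * V + (1 / (2 * t)) * (t ^ 2 * V) := by
        gcongr
    _ = t * V := by
        field_simp
        ring

section good

variable {C ε : ℝ} {f g : E d → ℝ} {l V : ℝ}

/-- A dominated integrand is integrable. -/
theorem dom_int {μ : Measure (Rot d × E d)} {F G : Rot d × E d → ℝ} (hF : Measurable F)
    (hG : Integrable G μ) (h : ∀ z, |F z| ≤ G z) : Integrable F μ :=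
  hG.mono' hF.aestronglyMeasurable (Eventually.of_forall h)

theorem Good.ff (h : Good d C ε f g l V) (b b' : E d) :
    ∫ z, fb f l b z * fb f l b' z ∂(muRE d) =
      ∫ R, (∫ x, f (x + l • act R (b - b')) * f x) ∂(rotHaar d) := by
  have h1 := integral_shift l b' (fun z => f (z.2 + l • act z.1 (b - b')) * f z.2)
    ((fb_meas h.f_meas l (b - b')).mul (h.f_meas.comp measurable_snd))
  have h2 : ∀ z : Rot d × E d, fb f l b z * fb f l b' z =
      (fun z : Rot d × E d => f (z.2 + l • act z.1 (b - b')) * f z.2)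
        (z.1, z.2 + l • act z.1 b') := by
    intro z
    simp only [fb, act_sub, smul_sub]
    congr 2
    abel
  simp_rw [h2]
  rw [h1, integral_prod]
  refine dom_int (G := fun z => f z.2)
    ((fb_meas h.f_meas l (b - b')).mul (h.f_meas.comp measurable_snd)) (snd_int h.f_int) ?_
  intro z
  show |f (z.2 + l • act z.1 (b - b')) * f z.2| ≤ f z.2
  rw [abs_mul, abs_of_nonneg (h.f_nonneg _), abs_of_nonneg (h.f_nonneg _)]
  exact mul_le_of_le_one_left (h.f_nonneg _) (h.f_le_one _)

theorem Good.fg_int (h : Good d C ε f g l V) (b : E d) :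
    Integrable (fun z => fb f l b z * g z.2) (muRE d) := by
  refine dom_int (G := fun z => g z.2)
    ((fb_meas h.f_meas l b).mul (h.g_meas.comp measurable_snd)) (snd_int h.g_int) ?_
  intro z
  show |f (z.2 + l • act z.1 b) * g z.2| ≤ g z.2
  rw [abs_mul, abs_of_nonneg (h.f_nonneg _), abs_of_nonneg (h.g_nonneg _)]
  exact mul_le_of_le_one_left (h.g_nonneg _) (h.f_le_one _)

theorem Good.ff_int (h : Good d C ε f g l V) (b b' : E d) :
    Integrable (fun z => fb f l b z * fb f l b' z) (muRE d) := by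
  refine dom_int (G := fb f l b')
    ((fb_meas h.f_meas l b).mul (fb_meas h.f_meas l b')) (fb_int h.f_int l b') ?_
  intro z
  show |f (z.2 + l • act z.1 b) * f (z.2 + l • act z.1 b')| ≤ f (z.2 + l • act z.1 b')
  rw [abs_mul, abs_of_nonneg (h.f_nonneg _), abs_of_nonneg (h.f_nonneg _)]
  exact mul_le_of_le_one_left (h.f_nonneg _) (h.f_le_one _)

theorem Good.gg_int (h : Good d C ε f g l V) :
    Integrable (fun z : Rot d × E d => g z.2 ^ 2) (muRE d) := by
  refine dom_int (G := fun z => g z.2)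
    ((h.g_meas.comp measurable_snd).pow_const 2) (snd_int h.g_int) ?_
  intro z
  show |g z.2 ^ 2| ≤ g z.2
  rw [abs_of_nonneg (sq_nonneg _), sq]
  exact mul_le_of_le_one_left (h.g_nonneg _) (h.g_le_one _)

theorem Good.fg (h : Good d C ε f g l V) (b : E d) :
    ∫ z, fb f l b z * g z.2 ∂(muRE d) =
      ∫ R, (∫ x, f (x + l • act R b) * g x) ∂(rotHaar d) := by
  rw [integral_prod _ (h.fg_int b)]
  rfl

theorem Good.ff_le (h : Good d C ε f g l V) (b : E d) :
    ∫ z, fb f l b z * fb f l b z ∂(muRE d) ≤ V := by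
  calc _ ≤ ∫ z, fb f l b z ∂(muRE d) := by
        apply integral_mono (h.ff_int b b) (fb_int h.f_int l b)
        intro z
        exact mul_le_of_le_one_left (h.f_nonneg _) (h.f_le_one _)
    _ = ∫ x, f x := integral_fb h.f_meas l b
    _ ≤ V := h.f_mass

theorem Good.f0 (h : Good d C ε f g l V) (b : E d) (z : Rot d × E d) : 0 ≤ fb f l b z :=
  h.f_nonneg _

theorem Good.f1 (h : Good d C ε f g l V) (b : E d) (z : Rot d × E d) : fb f l b z ≤ 1 :=
  h.f_le_one _

theorem Good.g0 (h : Good d C ε f g l V) (b : E d) (z : Rot d × E d) : 0 ≤ fb g l b z :=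
  h.g_nonneg _

theorem Good.g1 (h : Good d C ε f g l V) (b : E d) (z : Rot d × E d) : fb g l b z ≤ 1 :=
  h.g_le_one _

/-- The averaged function minus its expectation. -/
noncomputable def dev (f g : E d → ℝ) (l : ℝ) {m : ℕ} (b : Fin m → E d)
    (z : Rot d × E d) : ℝ := (1 / (m : ℝ)) * ∑ i, fb f l (b i) z - g z.2

theorem Good.dev_int (h : Good d C ε f g l V) {m : ℕ} (b : Fin m → E d) :
    Integrable (fun z => dev f g l b z ^ 2) (muRE d) := by
  have e : (fun z => dev f g l b z ^ 2) = fun z =>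
      (1 / (m : ℝ)) ^ 2 * ∑ i, ∑ j, fb f l (b i) z * fb f l (b j) z
        - (2 / (m : ℝ)) * ∑ i, fb f l (b i) z * g z.2 + g z.2 ^ 2 := by
    funext z
    rw [← Finset.sum_mul_sum, ← Finset.sum_mul]
    unfold dev
    ring
  rw [e]
  refine Integrable.add (Integrable.sub (Integrable.const_mul ?_ _)
    (Integrable.const_mul ?_ _)) h.gg_int
  · exact integrable_finsetSum _ fun i _ => integrable_finsetSum _ fun j _ => h.ff_int _ _
  · exact integrable_finsetSum _ fun i _ => h.fg_int _

/-- The law of large numbers. -/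
theorem Good.lln (h : Good d C ε f g l V) (hε : 0 ≤ ε) {m : ℕ} (hm : 0 < m) (b : Fin m → E d)
    (hb : ∀ i, 1 / C ≤ ‖b i‖ ∧ ‖b i‖ ≤ C)
    (hbb : ∀ i j, i ≠ j → 1 / C ≤ ‖b i - b j‖ ∧ ‖b i - b j‖ ≤ C) :
    ∫ z, dev f g l b z ^ 2 ∂(muRE d) ≤ (1 / (m : ℝ) + 3 * ε) * V := by
  obtain ⟨q, hq, hcorr⟩ := h.corr
  have hm' : (0 : ℝ) < m := by exact_mod_cast hm
  have hq0 : 0 ≤ q := le_trans (integral_nonneg fun x => sq_nonneg _) hq
  have hV := h.V_pos
  have e : (fun z => dev f g l b z ^ 2) = fun z =>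
      (1 / (m : ℝ)) ^ 2 * ∑ i, ∑ j, fb f l (b i) z * fb f l (b j) z
        - (2 / (m : ℝ)) * ∑ i, fb f l (b i) z * g z.2 + g z.2 ^ 2 := by
    funext z
    rw [← Finset.sum_mul_sum, ← Finset.sum_mul]
    unfold dev
    ring
  rw [e]
  have i1 : Integrable (fun z => (1 / (m : ℝ)) ^ 2 *
      ∑ i, ∑ j, fb f l (b i) z * fb f l (b j) z) (muRE d) :=
    Integrable.const_mul (integrable_finsetSum _ fun i _ =>
      integrable_finsetSum _ fun j _ => h.ff_int _ _) _
  have i2 : Integrable (fun z => (2 / (m : ℝ)) * ∑ i, fb f l (b i) z * g z.2) (muRE d) :=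
    Integrable.const_mul (integrable_finsetSum _ fun i _ => h.fg_int _) _
  have i12 : Integrable (fun z => (1 / (m : ℝ)) ^ 2 *
      ∑ i, ∑ j, fb f l (b i) z * fb f l (b j) z -
      (2 / (m : ℝ)) * ∑ i, fb f l (b i) z * g z.2) (muRE d) := i1.sub i2
  rw [integral_add i12 h.gg_int, integral_sub i1 i2, integral_const_mul,
    integral_const_mul, integral_finsetSum _ (fun i _ => integrable_finsetSum _
      fun j _ => h.ff_int _ _), integral_finsetSum _ (fun i _ => h.fg_int _)]
  have e2 : ∀ i, ∫ z, ∑ j, fb f l (b i) z * fb f l (b j) z ∂(muRE d) =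
      ∑ j, ∫ z, fb f l (b i) z * fb f l (b j) z ∂(muRE d) := fun i =>
    integral_finsetSum _ fun j _ => h.ff_int _ _
  simp_rw [e2]
  -- bounds
  have b1 : ∀ i j : Fin m, ∫ z, fb f l (b i) z * fb f l (b j) z ∂(muRE d) ≤
      (if i = j then V else 0) + (q + ε * V) := by
    intro i j
    by_cases hij : i = j
    · subst hij
      simp only [if_true]
      have := h.ff_le (b i)
      nlinarith [mul_nonneg hε hV.le]
    · simp only [hij, if_false, zero_add]
      rw [h.ff]
      have := (hcorr (b i - b j) (hbb i j hij).1 (hbb i j hij).2).1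
      rw [abs_le] at this
      linarith [this.2]
  have b2 : ∀ i : Fin m, q - ε * V ≤ ∫ z, fb f l (b i) z * g z.2 ∂(muRE d) := by
    intro i
    rw [h.fg]
    have := (hcorr (b i) (hb i).1 (hb i).2).2
    rw [abs_le] at this
    linarith [this.1]
  have b3 : ∫ z : Rot d × E d, g z.2 ^ 2 ∂(muRE d) ≤ q := by
    rw [integral_snd (fun x => g x ^ 2)]
    exact hq
  have s1 : ∑ i, ∑ j, ∫ z, fb f l (b i) z * fb f l (b j) z ∂(muRE d) ≤
      m * V + m ^ 2 * (q + ε * V) := by
    calc _ ≤ ∑ i : Fin m, ∑ j : Fin m, ((if i = j then V else 0) + (q + ε * V)) :=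
          Finset.sum_le_sum fun i _ => Finset.sum_le_sum fun j _ => b1 i j
      _ = m * V + m ^ 2 * (q + ε * V) := by
          simp [Finset.sum_add_distrib]
          ring
  have s2 : m * (q - ε * V) ≤ ∑ i, ∫ z, fb f l (b i) z * g z.2 ∂(muRE d) := by
    calc (m : ℝ) * (q - ε * V) = ∑ _i : Fin m, (q - ε * V) := by simp [mul_sub]
      _ ≤ _ := Finset.sum_le_sum fun i _ => b2 i
  calc _ ≤ (1 / (m : ℝ)) ^ 2 * (m * V + m ^ 2 * (q + ε * V)) - (2 / (m : ℝ)) *
        (m * (q - ε * V)) + q := by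
        gcongr
    _ = (1 / (m : ℝ) + 3 * ε) * V := by
        field_simp
        ring

/-- The replacement step. -/
theorem Good.step (h : Good d C ε f g l V) (hε : 0 ≤ ε) {m : ℕ} (hm : 0 < m) {t : ℝ}
    (ht : 0 < t) (htm : 1 / (m : ℝ) + 3 * ε ≤ t ^ 2) (b : E d) (U : Fin m → Rot d)
    (hb : ∀ i, 1 / C ≤ ‖act (U i) b‖ ∧ ‖act (U i) b‖ ≤ C)
    (hbb : ∀ i j, i ≠ j → 1 / C ≤ ‖act (U i) b - act (U j) b‖ ∧
      ‖act (U i) b - act (U j) b‖ ≤ C)
    (Φ : Rot d × E d → ℝ) (hΦm : Measurable Φ) (hΦ0 : ∀ z, 0 ≤ Φ z) (hΦ1 : ∀ z, Φ z ≤ 1)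
    (hΦi : Integrable Φ (muRE d)) (hΦV : ∫ z, Φ z ∂(muRE d) ≤ V)
    (hU : ∀ i z, Φ (z.1 * U i, z.2) = Φ z) :
    |∫ z, Φ z * fb f l b z ∂(muRE d) - ∫ z, Φ z * g z.2 ∂(muRE d)| ≤ t * V := by
  have hm' : (0 : ℝ) < m := by exact_mod_cast hm
  have hfm := fun b => fb_meas h.f_meas l b
  have hgm : Measurable (fun z : Rot d × E d => g z.2) := h.g_meas.comp measurable_snd
  have iΦf : ∀ b, Integrable (fun z => Φ z * fb f l b z) (muRE d) := by
    intro b
    refine dom_int (G := Φ) (hΦm.mul (hfm b)) hΦi ?_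
    intro z
    rw [abs_mul, abs_of_nonneg (hΦ0 z), abs_of_nonneg (h.f0 _ _)]
    exact mul_le_of_le_one_right (hΦ0 z) (h.f1 _ _)
  have iΦg : Integrable (fun z => Φ z * g z.2) (muRE d) := by
    refine dom_int (G := Φ) (hΦm.mul hgm) hΦi ?_
    intro z
    rw [abs_mul, abs_of_nonneg (hΦ0 z), abs_of_nonneg (h.g_nonneg _)]
    exact mul_le_of_le_one_right (hΦ0 z) (h.g_le_one _)
  have e1 : ∀ i, ∫ z, Φ z * fb f l b z ∂(muRE d) =
      ∫ z, Φ z * fb f l (act (U i) b) z ∂(muRE d) := by
    intro i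
    rw [← integral_right (U i) (fun z => Φ z * fb f l b z) (hΦm.mul (hfm b))]
    refine integral_congr_ae (Eventually.of_forall fun z => ?_)
    show Φ (z.1 * U i, z.2) * fb f l b (z.1 * U i, z.2) = _
    rw [hU]
    rfl
  have e2 : ∫ z, Φ z * fb f l b z ∂(muRE d) - ∫ z, Φ z * g z.2 ∂(muRE d) =
      ∫ z, Φ z * dev f g l (fun i => act (U i) b) z ∂(muRE d) := by
    have e3 : (fun z => Φ z * dev f g l (fun i => act (U i) b) z) = fun z =>
        (1 / (m : ℝ)) * ∑ i, Φ z * fb f l (act (U i) b) z - Φ z * g z.2 := by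
      funext z
      rw [← Finset.mul_sum]
      unfold dev
      ring
    rw [e3, integral_sub (Integrable.const_mul (integrable_finsetSum _ fun i _ => iΦf _) _) iΦg,
      integral_const_mul, integral_finsetSum _ (fun i _ => iΦf _)]
    simp_rw [← e1]
    simp
    field_simp
  rw [e2]
  apply cs ht
  · refine dom_int (G := Φ) (hΦm.pow_const 2) hΦi ?_
    intro z
    rw [abs_of_nonneg (sq_nonneg _), sq]
    exact mul_le_of_le_one_left (hΦ0 z) (hΦ1 z)
  · exact h.dev_int _
  · refine le_trans ?_ hΦV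
    apply integral_mono_of_nonneg (Eventually.of_forall fun z => sq_nonneg _) hΦi
    refine Eventually.of_forall fun z => ?_
    show Φ z ^ 2 ≤ Φ z
    rw [sq]
    exact mul_le_of_le_one_left (hΦ0 z) (hΦ1 z)
  · refine le_trans (h.lln hε hm _ hb hbb) ?_
    exact mul_le_mul_of_nonneg_right htm h.V_pos.le

theorem abs_pow_sub_pow {a b : ℝ} (ha : 0 ≤ a) (ha1 : a ≤ 1) (hb : 0 ≤ b) (hb1 : b ≤ 1)
    (n : ℕ) : |a ^ n - b ^ n| ≤ n * |a - b| := by
  induction n with
  | zero => simp
  | succ n ih =>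
      have e : a ^ (n + 1) - b ^ (n + 1) = a * (a ^ n - b ^ n) + b ^ n * (a - b) := by ring
      rw [e]
      calc |a * (a ^ n - b ^ n) + b ^ n * (a - b)| ≤ |a * (a ^ n - b ^ n)| +
            |b ^ n * (a - b)| := abs_add_le _ _
        _ = a * |a ^ n - b ^ n| + b ^ n * |a - b| := by
            rw [abs_mul, abs_mul, abs_of_nonneg ha, abs_of_nonneg (pow_nonneg hb n)]
        _ ≤ 1 * (n * |a - b|) + 1 * |a - b| := by
            have h1 : b ^ n ≤ 1 := pow_le_one₀ hb hb1
            gcongr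
        _ = ((n + 1 : ℕ) : ℝ) * |a - b| := by push_cast; ring

/-- The base case. -/
theorem Good.base (h : Good d C ε f g l V) (hε : 0 ≤ ε) {m : ℕ} (hm : 0 < m) {t : ℝ}
    (ht : 0 < t) (htm : 1 / (m : ℝ) + 3 * ε ≤ t ^ 2) (b : E d) (U : Fin m → Rot d)
    (hbC : ‖b‖ ≤ C)
    (hb : ∀ i, 1 / C ≤ ‖act (U i) b‖ ∧ ‖act (U i) b‖ ≤ C)
    (hbb : ∀ i j, i ≠ j → 1 / C ≤ ‖act (U i) b - act (U j) b‖ ∧
      ‖act (U i) b - act (U j) b‖ ≤ C) (n : ℕ) :
    |(∫ x, f x * g x ^ n) - ∫ x, g x ^ (n + 1)| ≤ (n + 1) * t * V := by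
  have hV := h.V_pos
  rcases Nat.eq_zero_or_pos n with hn | hn
  · subst hn
    simp only [pow_zero, mul_one, zero_add, pow_one]
    have : (∫ x, f x) - ∫ x, g x = 0 := by rw [h.int_eq, sub_self]
    rw [this, abs_zero]
    push_cast
    positivity
  have hfm := fb_meas h.f_meas l b
  have hgm : Measurable (fun z : Rot d × E d => g z.2) := h.g_meas.comp measurable_snd
  have hgbm := fb_meas h.g_meas l b
  have gp : ∀ (x : E d), g x ^ n ≤ g x := by
    intro x
    calc g x ^ n ≤ g x ^ 1 := pow_le_pow_of_le_one (h.g_nonneg x) (h.g_le_one x) hn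
      _ = g x := pow_one _
  -- translation
  have e1 : ∫ x, f x * g x ^ n = ∫ z, fb f l b z * fb g l b z ^ n ∂(muRE d) := by
    rw [← integral_snd (fun x => f x * g x ^ n)]
    exact (integral_shift l b (fun z => f z.2 * g z.2 ^ n)
      ((h.f_meas.comp measurable_snd).mul (hgm.pow_const n))).symm
  have hε1 : 3 * ε ≤ t ^ 2 := by
    have : (0 : ℝ) ≤ 1 / (m : ℝ) := by positivity
    linarith
  -- smoothness
  have gd_int : Integrable (fun z => (fb g l b z - g z.2) ^ 2) (muRE d) := by
    refine dom_int (G := fun z => fb g l b z + g z.2) ((hgbm.sub hgm).pow_const 2)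
      ((fb_int h.g_int l b).add (snd_int h.g_int)) ?_
    intro z
    rw [abs_of_nonneg (sq_nonneg _)]
    show (g (z.2 + l • act z.1 b) - g z.2) ^ 2 ≤ g (z.2 + l • act z.1 b) + g z.2
    have a1 := h.g_nonneg (z.2 + l • act z.1 b)
    have a2 := h.g_le_one (z.2 + l • act z.1 b)
    have a3 := h.g_nonneg z.2
    have a4 := h.g_le_one z.2
    nlinarith [mul_nonneg a1 a3]
  have s1 : ∫ z, (fb g l b z - g z.2) ^ 2 ∂(muRE d) ≤ t ^ 2 * V := by
    rw [integral_prod _ gd_int]
    calc ∫ R, (∫ x, (fb g l b (R, x) - g x) ^ 2) ∂(rotHaar d) ≤ ∫ _R : Rot d, ε * V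
          ∂(rotHaar d) := by
          apply integral_mono_of_nonneg
          · exact Eventually.of_forall fun R => integral_nonneg fun x => sq_nonneg _
          · exact integrable_const _
          · refine Eventually.of_forall fun R => ?_
            exact h.smooth (act R b) (by rw [norm_act]; exact hbC)
      _ = ε * V := by simp
      _ ≤ t ^ 2 * V := by nlinarith
  have iff' : Integrable (fun z => fb f l b z ^ 2) (muRE d) := by
    have := h.ff_int b b
    simpa [sq] using this
  have vff : ∫ z, fb f l b z ^ 2 ∂(muRE d) ≤ V := by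
    have := h.ff_le b
    simpa [sq] using this
  have adiff : Integrable (fun z => |fb g l b z - g z.2| ^ 2) (muRE d) := by
    simpa [sq_abs] using gd_int
  have s2 : |∫ z, fb f l b z * |fb g l b z - g z.2| ∂(muRE d)| ≤ t * V := by
    apply cs ht iff' adiff vff
    simpa [sq_abs] using s1
  have i1 : Integrable (fun z => fb f l b z * fb g l b z ^ n) (muRE d) := by
    refine dom_int (G := fb f l b) (hfm.mul (hgbm.pow_const n)) (fb_int h.f_int l b) ?_
    intro z
    rw [abs_mul, abs_of_nonneg (h.f0 _ _), abs_of_nonneg (pow_nonneg (h.g0 _ _) n)]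
    exact mul_le_of_le_one_right (h.f0 _ _) (pow_le_one₀ (h.g0 _ _) (h.g1 _ _))
  have i2 : Integrable (fun z => fb f l b z * g z.2 ^ n) (muRE d) := by
    refine dom_int (G := fb f l b) (hfm.mul (hgm.pow_const n)) (fb_int h.f_int l b) ?_
    intro z
    rw [abs_mul, abs_of_nonneg (h.f0 _ _), abs_of_nonneg (pow_nonneg (h.g_nonneg _) n)]
    exact mul_le_of_le_one_right (h.f0 _ _) (pow_le_one₀ (h.g_nonneg _) (h.g_le_one _))
  have i3 : Integrable (fun z => fb f l b z * |fb g l b z - g z.2|) (muRE d) := by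
    refine dom_int (G := fb f l b) (hfm.mul (hgbm.sub hgm).abs) (fb_int h.f_int l b) ?_
    intro z
    rw [abs_mul, abs_of_nonneg (h.f0 _ _), abs_abs]
    refine mul_le_of_le_one_right (h.f0 _ _) ?_
    show |g (z.2 + l • act z.1 b) - g z.2| ≤ 1
    rw [abs_le]
    have a1 := h.g_nonneg (z.2 + l • act z.1 b)
    have a2 := h.g_le_one (z.2 + l • act z.1 b)
    have a3 := h.g_nonneg z.2
    have a4 := h.g_le_one z.2
    constructor <;> linarith
  have s3 : |∫ z, fb f l b z * fb g l b z ^ n ∂(muRE d) -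
      ∫ z, fb f l b z * g z.2 ^ n ∂(muRE d)| ≤ n * (t * V) := by
    rw [← integral_sub i1 i2]
    calc |∫ z, (fb f l b z * fb g l b z ^ n - fb f l b z * g z.2 ^ n) ∂(muRE d)| ≤
        ∫ z, |fb f l b z * fb g l b z ^ n - fb f l b z * g z.2 ^ n| ∂(muRE d) :=
          abs_integral_le_integral_abs
      _ ≤ ∫ z, (n : ℝ) * (fb f l b z * |fb g l b z - g z.2|) ∂(muRE d) := by
          apply integral_mono_of_nonneg
          · exact Eventually.of_forall fun z => abs_nonneg _
          · exact i3.const_mul _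
          · refine Eventually.of_forall fun z => ?_
            show |fb f l b z * fb g l b z ^ n - fb f l b z * g z.2 ^ n| ≤ _
            rw [← mul_sub, abs_mul, abs_of_nonneg (h.f0 _ _)]
            have := abs_pow_sub_pow (h.g_nonneg (z.2 + l • act z.1 b)) (h.g_le_one _)
              (h.g_nonneg z.2) (h.g_le_one z.2) n
            calc _ ≤ f (z.2 + l • act z.1 b) * (n * |g (z.2 + l • act z.1 b) - g z.2|) :=
                  mul_le_mul_of_nonneg_left this (h.f_nonneg _)
              _ = _ := by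
                  unfold fb
                  ring
      _ = n * ∫ z, fb f l b z * |fb g l b z - g z.2| ∂(muRE d) := integral_const_mul _ _
      _ ≤ n * (t * V) := by
          gcongr
          exact le_trans (le_abs_self _) s2
  have s4 : |∫ z, g z.2 ^ n * fb f l b z ∂(muRE d) - ∫ z, g z.2 ^ n * g z.2 ∂(muRE d)| ≤
      t * V := by
    refine h.step hε hm ht htm b U hb hbb (fun z => g z.2 ^ n) (hgm.pow_const n)
      (fun z => pow_nonneg (h.g_nonneg _) n) (fun z => pow_le_one₀ (h.g_nonneg _) (h.g_le_one _))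
      ?_ ?_ (fun i z => rfl)
    · refine dom_int (G := fun z => g z.2) (hgm.pow_const n) (snd_int h.g_int) ?_
      intro z
      rw [abs_of_nonneg (pow_nonneg (h.g_nonneg _) n)]
      exact gp _
    · calc ∫ z : Rot d × E d, g z.2 ^ n ∂(muRE d) ≤ ∫ z : Rot d × E d, g z.2 ∂(muRE d) := by
            apply integral_mono_of_nonneg
            · exact Eventually.of_forall fun z => pow_nonneg (h.g_nonneg _) n
            · exact snd_int h.g_int
            · exact Eventually.of_forall fun z => gp _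
        _ = ∫ x, g x := integral_snd g
        _ = ∫ x, f x := h.int_eq
        _ ≤ V := h.f_mass
  have e4 : ∫ z : Rot d × E d, g z.2 ^ n * g z.2 ∂(muRE d) = ∫ x, g x ^ (n + 1) := by
    rw [← integral_snd (fun x => g x ^ (n + 1))]
    refine integral_congr_ae (Eventually.of_forall fun z => ?_)
    exact (pow_succ _ _).symm
  have e5 : ∫ z, g z.2 ^ n * fb f l b z ∂(muRE d) = ∫ z, fb f l b z * g z.2 ^ n ∂(muRE d) := by
    refine integral_congr_ae (Eventually.of_forall fun z => ?_)
    exact mul_comm _ _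
  rw [e4, e5] at s4
  rw [e1]
  rw [abs_le] at s3 s4 ⊢
  constructor
  · nlinarith [s3.1, s4.1]
  · nlinarith [s3.2, s4.2]

end good


theorem ev_norm {x : ℝ} (hx : 0 < x) : ∀ᶠ C : ℝ in atTop, 1 / C ≤ x ∧ x ≤ C := by
  filter_upwards [eventually_ge_atTop (1 / x), eventually_ge_atTop x, eventually_gt_atTop 0]
    with C h1 h2 h3
  refine ⟨?_, h2⟩
  rw [div_le_iff₀ h3]
  rw [div_le_iff₀ hx] at h1
  linarith [mul_comm C x]

theorem ev_all {m : ℕ} (b : E d) (hb : b ≠ 0) (U : Fin m → Rot d)
    (hU : Function.Injective (fun i => act (U i) b)) : ∀ᶠ C : ℝ in atTop,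
    ‖b‖ ≤ C ∧ (∀ i, 1 / C ≤ ‖act (U i) b‖ ∧ ‖act (U i) b‖ ≤ C) ∧
    (∀ i j, i ≠ j → 1 / C ≤ ‖act (U i) b - act (U j) b‖ ∧ ‖act (U i) b - act (U j) b‖ ≤ C) := by
  have h0 := ev_norm (norm_pos_iff.mpr hb)
  have h1 : ∀ i j, i ≠ j → ∀ᶠ C : ℝ in atTop,
      1 / C ≤ ‖act (U i) b - act (U j) b‖ ∧ ‖act (U i) b - act (U j) b‖ ≤ C := by
    intro i j hij
    apply ev_norm
    rw [norm_pos_iff, sub_ne_zero]
    exact fun h => hij (hU h)
  have h2 : ∀ᶠ C : ℝ in atTop, ∀ i j, i ≠ j →
      1 / C ≤ ‖act (U i) b - act (U j) b‖ ∧ ‖act (U i) b - act (U j) b‖ ≤ C := by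
    rw [eventually_all]
    intro i
    rw [eventually_all]
    intro j
    by_cases hij : i = j
    · exact Eventually.of_forall fun C h => absurd hij h
    · filter_upwards [h1 i j hij] with C hC _
      exact hC
  filter_upwards [h0, h2] with C hC hC2
  refine ⟨hC.2, fun i => ?_, hC2⟩
  rw [norm_act]
  exact hC

theorem core (hd : 2 ≤ d) (n : ℕ) (hn : n + 1 ≤ d) (v : ℕ → E d)
    (hv : ∀ k < n, v k ∉ Submodule.span ℝ (v '' {i | i < k})) (t : ℝ) (ht : 0 < t) :
    ∃ C : ℝ, 1 ≤ C ∧ ∃ ε : ℝ, 0 < ε ∧ ∀ (f g : E d → ℝ) (l V : ℝ), Good d C ε f g l V →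
      |∫ z, f z.2 * ∏ i ∈ Finset.range n, fb f l (v i) z ∂(muRE d) - ∫ x, g x ^ (n + 1)| ≤
        (2 * n + 1) * t * V := by
  obtain ⟨m, hm⟩ := exists_nat_gt (2 / t ^ 2)
  have ht2 : 0 < t ^ 2 := by positivity
  have hm0 : (0 : ℝ) < m := lt_trans (by positivity) hm
  have hmN : 0 < m := by exact_mod_cast hm0
  have hm1 : 1 / (m : ℝ) ≤ t ^ 2 / 2 := by
    rw [div_le_iff₀ hm0]
    rw [div_lt_iff₀ ht2] at hm
    linarith
  -- a unit vector
  have h0d : 0 < d := by omega
  set e : E d := EuclideanSpace.single ⟨0, h0d⟩ (1 : ℝ) with he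
  have he0 : e ≠ 0 := by
    rw [← norm_pos_iff, he]
    simp
  obtain ⟨Ue, hUe, hUei⟩ := exists_reflections (⊥ : Submodule ℝ (E d))
    (by rw [finrank_bot]; omega) e (by simpa using he0) m
  have hfr : ∀ k, Module.finrank ℝ (Submodule.span ℝ (v '' {i | i < k})) ≤ k := by
    intro k
    have e1 : v '' {i | i < k} = (((Finset.range k).image v : Finset (E d)) : Set (E d)) := by
      ext x
      simp
    rw [e1]
    calc _ ≤ ((Finset.range k).image v).card := finrank_span_finset_le_card _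
      _ ≤ (Finset.range k).card := Finset.card_image_le
      _ = k := Finset.card_range k
  have hex : ∀ k, k < n → ∃ U : Fin m → Rot d,
      (∀ i, ∀ w ∈ Submodule.span ℝ (v '' {i | i < k}), act (U i) w = w) ∧
      Function.Injective (fun i => act (U i) (v k)) := by
    intro k hk
    apply exists_reflections _ _ _ (hv k hk)
    have := hfr k
    omega
  choose! U hUf hUi using hex
  have hv0 : ∀ k < n, v k ≠ 0 := by
    intro k hk h
    apply hv k hk
    rw [h]
    exact Submodule.zero_mem _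
  have hev : ∀ᶠ C : ℝ in atTop, ∀ k ∈ Finset.range n, ‖v k‖ ≤ C ∧
      (∀ i, 1 / C ≤ ‖act (U k i) (v k)‖ ∧ ‖act (U k i) (v k)‖ ≤ C) ∧
      (∀ i j, i ≠ j → 1 / C ≤ ‖act (U k i) (v k) - act (U k j) (v k)‖ ∧
        ‖act (U k i) (v k) - act (U k j) (v k)‖ ≤ C) := by
    rw [Finset.eventually_all]
    intro k hk
    rw [Finset.mem_range] at hk
    exact ev_all (v k) (hv0 k hk) (U k) (hUi k hk)
  obtain ⟨C, hC1, hCe, hCv⟩ := ((eventually_ge_atTop (1 : ℝ)).and
    ((ev_all e he0 Ue hUei).and hev)).exists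
  refine ⟨C, hC1, t ^ 2 / 6, by positivity, ?_⟩
  intro f g l V h
  have hε : 0 ≤ t ^ 2 / 6 := by positivity
  have htm : 1 / (m : ℝ) + 3 * (t ^ 2 / 6) ≤ t ^ 2 := by linarith
  have hV := h.V_pos
  have hfm : Measurable (fun z : Rot d × E d => f z.2) := h.f_meas.comp measurable_snd
  have hgm : Measurable (fun z : Rot d × E d => g z.2) := h.g_meas.comp measurable_snd
  have hpm : ∀ k, Measurable (fun z => ∏ i ∈ Finset.range k, fb f l (v i) z) := by
    intro k
    exact Finset.measurable_prod _ fun i _ => fb_meas h.f_meas l (v i)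
  have hp0 : ∀ k z, 0 ≤ ∏ i ∈ Finset.range k, fb f l (v i) z := fun k z =>
    Finset.prod_nonneg fun i _ => h.f0 _ _
  have hp1 : ∀ k z, ∏ i ∈ Finset.range k, fb f l (v i) z ≤ 1 := fun k z =>
    Finset.prod_le_one (fun i _ => h.f0 _ _) fun i _ => h.f1 _ _
  have key : ∀ k, k ≤ n →
      |∫ z, f z.2 * (∏ i ∈ Finset.range k, fb f l (v i) z) * g z.2 ^ (n - k) ∂(muRE d) -
        ∫ x, g x ^ (n + 1)| ≤ (n + 1) * t * V + k * t * V := by
    intro k
    induction k with
    | zero =>
        intro _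
        have := h.base hε hmN ht htm e Ue hCe.1 hCe.2.1 hCe.2.2 n
        have e1 : ∫ z, f z.2 * (∏ i ∈ Finset.range 0, fb f l (v i) z) * g z.2 ^ (n - 0)
            ∂(muRE d) = ∫ x, f x * g x ^ n := by
          rw [← integral_snd (fun x => f x * g x ^ n)]
          simp
        rw [e1]
        simpa using this
    | succ k ih =>
        intro hk
        have ih' := ih (by omega)
        set Φ : Rot d × E d → ℝ := fun z =>
          f z.2 * (∏ i ∈ Finset.range k, fb f l (v i) z) * g z.2 ^ (n - (k + 1)) with hΦ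
        have hΦm : Measurable Φ := (hfm.mul (hpm k)).mul (hgm.pow_const _)
        have hg0 : ∀ z : Rot d × E d, 0 ≤ g z.2 ^ (n - (k + 1)) := fun z =>
          pow_nonneg (h.g_nonneg _) _
        have hg1 : ∀ z : Rot d × E d, g z.2 ^ (n - (k + 1)) ≤ 1 := fun z =>
          pow_le_one₀ (h.g_nonneg _) (h.g_le_one _)
        have hΦ0 : ∀ z, 0 ≤ Φ z := fun z =>
          mul_nonneg (mul_nonneg (h.f_nonneg _) (hp0 k z)) (hg0 z)
        have hΦf : ∀ z, Φ z ≤ f z.2 := by
          intro z
          calc Φ z ≤ f z.2 * 1 * 1 := by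
                apply mul_le_mul _ (hg1 z) (hg0 z) (by simpa using h.f_nonneg _)
                exact mul_le_mul_of_nonneg_left (hp1 k z) (h.f_nonneg _)
            _ = f z.2 := by ring
        have hΦi : Integrable Φ (muRE d) := by
          refine dom_int hΦm (snd_int h.f_int) ?_
          intro z
          rw [abs_of_nonneg (hΦ0 z)]
          exact hΦf z
        have hkn : k < n := by omega
        have hCk := hCv k (Finset.mem_range.mpr hkn)
        have st := h.step hε hmN ht htm (v k) (U k) hCk.2.1 hCk.2.2 Φ hΦm hΦ0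
          (fun z => (hΦf z).trans (h.f_le_one _)) hΦi
          (by
            calc ∫ z, Φ z ∂(muRE d) ≤ ∫ z : Rot d × E d, f z.2 ∂(muRE d) :=
                  integral_mono hΦi (snd_int h.f_int) hΦf
              _ = ∫ x, f x := integral_snd f
              _ ≤ V := h.f_mass)
          (by
            intro i z
            have e1 : ∀ j ∈ Finset.range k, fb f l (v j) (z.1 * U k i, z.2) =
                fb f l (v j) z := by
              intro j hj
              have : act (U k i) (v j) = v j := by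
                apply hUf k hkn i
                apply Submodule.subset_span
                exact ⟨j, Finset.mem_range.mp hj, rfl⟩
              unfold fb
              simp only [act_mul, this]
            simp only [hΦ]
            rw [Finset.prod_congr rfl e1])
        have e2 : ∫ z, Φ z * fb f l (v k) z ∂(muRE d) =
            ∫ z, f z.2 * (∏ i ∈ Finset.range (k + 1), fb f l (v i) z) *
              g z.2 ^ (n - (k + 1)) ∂(muRE d) := by
          refine integral_congr_ae (Eventually.of_forall fun z => ?_)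
          simp only [hΦ, Finset.prod_range_succ]
          ring
        have e3 : ∫ z, Φ z * g z.2 ∂(muRE d) =
            ∫ z, f z.2 * (∏ i ∈ Finset.range k, fb f l (v i) z) *
              g z.2 ^ (n - k) ∂(muRE d) := by
          refine integral_congr_ae (Eventually.of_forall fun z => ?_)
          have e4 : n - k = (n - (k + 1)) + 1 := by omega
          simp only [hΦ]
          rw [e4, pow_succ]
          ring
        rw [e2, e3] at st
        rw [abs_le] at st ih' ⊢
        push_cast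
        constructor
        · linarith [st.1, ih'.1]
        · linarith [st.2, ih'.2]
  have := key n le_rfl
  simp only [Nat.sub_self, pow_zero, mul_one] at this
  refine this.trans (le_of_eq ?_)
  ring

theorem indep (hd : 2 ≤ d) {ι : Type} [Fintype ι] [Nonempty ι] (p : ι → E d)
    (hp : AffineIndependent ℝ p) (hcard : Fintype.card ι ≤ d) (ε' : ℝ) (hε' : 0 < ε') :
    ∃ C : ℝ, 1 ≤ C ∧ ∃ ε : ℝ, 0 < ε ∧ ∀ (f g : E d → ℝ) (l V : ℝ), Good d C ε f g l V →
      |(∫ R, (∫ x, ∏ i, f (x + l • act R (p i))) ∂(rotHaar d)) - ∫ x, g x ^ (Fintype.card ι)|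
        ≤ ε' * V := by
  obtain ⟨n, hn⟩ : ∃ n, Fintype.card ι = n + 1 :=
    ⟨Fintype.card ι - 1, by have := Fintype.card_pos (α := ι); omega⟩
  set e : Fin (n + 1) ≃ ι := (Fintype.equivFinOfCardEq hn).symm with he
  set v : ℕ → E d := fun i => if h : i + 1 < n + 1 then p (e ⟨i + 1, h⟩) - p (e 0) else 0
    with hv
  have hvi : ∀ i : Fin n, v i = p (e i.succ) - p (e 0) := by
    intro i
    simp only [hv]
    rw [dif_pos (by omega)]
    rfl
  have hli : LinearIndependent ℝ (fun i : Fin n => v i) := by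
    have h1 : AffineIndependent ℝ (p ∘ e) := by
      have := hp.comp_embedding e.toEmbedding
      exact this
    rw [affineIndependent_iff_linearIndependent_vsub ℝ _ (0 : Fin (n + 1))] at h1
    have h2 := h1.comp (fun i : Fin n => (⟨i.succ, Fin.succ_ne_zero i⟩ : {x : Fin (n + 1) // x ≠ 0}))
      (by
        intro a b hab
        simpa using hab)
    have h3 : (fun i : Fin n => v i) =
        ((fun i : {x : Fin (n + 1) // x ≠ 0} => (p ∘ e) i -ᵥ (p ∘ e) 0) ∘
          fun i : Fin n => ⟨i.succ, Fin.succ_ne_zero i⟩) := by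
      funext i
      exact hvi i
    rw [h3]
    exact h2
  have hspan : ∀ k < n, v k ∉ Submodule.span ℝ (v '' {i | i < k}) := by
    intro k hk
    have := hli.notMem_span_image (s := {i : Fin n | (i : ℕ) < k}) (x := ⟨k, hk⟩) (by simp)
    intro h
    apply this
    convert h using 2
    ext x
    simp only [Set.mem_image, Set.mem_ofPred_eq]
    constructor
    · rintro ⟨i, hi, rfl⟩
      exact ⟨i, hi, rfl⟩
    · rintro ⟨i, hi, rfl⟩
      exact ⟨⟨i, by omega⟩, hi, rfl⟩
  obtain ⟨C, hC, ε, hε, H⟩ := core hd n (by omega) v hspan (ε' / (2 * n + 1)) (by positivity)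
  refine ⟨C, hC, ε, hε, ?_⟩
  intro f g l V h
  have H1 := H f g l V h
  have e0 : (2 * (n : ℝ) + 1) * (ε' / (2 * n + 1)) * V = ε' * V := by
    field_simp
  rw [e0] at H1
  rw [hn]
  refine le_trans (le_of_eq ?_) H1
  congr 2
  -- the product
  have e1 : ∀ (R : Rot d) (x : E d), ∏ i, f (x + l • act R (p i)) =
      (fun z : Rot d × E d => f z.2 * ∏ i ∈ Finset.range n, fb f l (v i) z)
        (R, x + l • act R (p (e 0))) := by
    intro R x
    rw [← Equiv.prod_comp e, Fin.prod_univ_succ]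
    show _ = f (x + l • act R (p (e 0))) * ∏ i ∈ Finset.range n, fb f l (v i)
      (R, x + l • act R (p (e 0)))
    congr 1
    rw [← Fin.prod_univ_eq_prod_range (fun i => fb f l (v i) (R, x + l • act R (p (e 0)))) n]
    refine Finset.prod_congr rfl fun i _ => ?_
    rw [hvi]
    unfold fb
    simp only [act_sub, smul_sub]
    congr 1
    abel
  simp_rw [e1]
  have hm : Measurable (fun z : Rot d × E d => f z.2 * ∏ i ∈ Finset.range n, fb f l (v i) z) :=
    (h.f_meas.comp measurable_snd).mul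
      (Finset.measurable_prod _ fun i _ => fb_meas h.f_meas l (v i))
  rw [← integral_shift l (p (e 0)) _ hm, integral_prod]
  refine dom_int (hm.comp (mp_shift l (p (e 0))).measurable)
    (fb_int h.f_int l (p (e 0))) ?_
  intro z
  have a0 : 0 ≤ ∏ i ∈ Finset.range n, fb f l (v i) (z.1, z.2 + l • act z.1 (p (e 0))) :=
    Finset.prod_nonneg fun i _ => h.f0 _ _
  have a1 : ∏ i ∈ Finset.range n, fb f l (v i) (z.1, z.2 + l • act z.1 (p (e 0))) ≤ 1 :=
    Finset.prod_le_one (fun i _ => h.f0 _ _) fun i _ => h.f1 _ _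
  show |fb f l (p (e 0)) z * ∏ i ∈ Finset.range n, fb f l (v i)
    (z.1, z.2 + l • act z.1 (p (e 0)))| ≤ fb f l (p (e 0)) z
  rw [abs_mul, abs_of_nonneg (h.f0 _ _), abs_of_nonneg a0]
  exact mul_le_of_le_one_right (h.f0 _ _) a1

end Pool.Agent.H16.Simp
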