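import Pool.Agent.H16.Simp.Rep

/-!
# The translation representation on `L²`
-/

open MeasureTheory Measure Metric Filter Topology
open scoped RealInnerProductSpace

set_option linter.unusedSectionVars false

namespace Pool.Agent.H16.Simp

variable {d : ℕ}

/-- `L²` of Euclidean space. -/
abbrev L2 (d : ℕ) : Type := Lp ℝ 2 (volume : Measure (E d))

theorem mp_add (v : E d) : MeasurePreserving (fun x : E d => x + v) volume volume :=
  measurePreserving_add_right volume v

/-- Translation. -/
noncomputable def trans (d : ℕ) (v : E d) : L2 d →L[ℝ] L2 d :=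
  (Lp.compMeasurePreservingₗᵢ ℝ (fun x : E d => x + v) (mp_add v)).toContinuousLinearMap

theorem trans_apply (v : E d) (u : L2 d) :
    trans d v u = Lp.compMeasurePreserving (fun x : E d => x + v) (mp_add v) u := rfl

theorem trans_cont (u : L2 d) : Continuous (fun v : E d => trans d v u) := by
  have h := Lp.compMeasurePreserving_continuous (X := E d) (Y := E d) volume volume ℝ
    (p := 2) (by norm_num)
  let F : C(E d, C(E d, E d)) := ContinuousMap.curry ⟨fun p : E d × E d => p.2 + p.1, by fun_prop⟩
  have hF : ∀ v, MeasurePreserving (F v) volume volume := fun v => mp_add v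
  have h2 : Continuous (fun v : E d => (⟨F v, hF v⟩ :
      {f : C(E d, E d) // MeasurePreserving f volume volume})) :=
    F.continuous.subtype_mk hF
  exact h.comp (continuous_const.prodMk h2)

/-- The translation representation on `L²`. -/
noncomputable def l2Rep (d : ℕ) : TransRep d (L2 d) where
  τ := trans d
  norm_τ v u := Lp.norm_compMeasurePreserving u (mp_add v)
  τ_add v w u := by
    rw [trans_apply, trans_apply, trans_apply, ← Lp.compMeasurePreserving_comp_apply]
    have h : (fun x : E d => x + (v + w)) = (fun x => x + w) ∘ fun x => x + v := by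
      funext x
      simp [add_assoc]
    simp only [h]
  τ_zero u := by
    rw [trans_apply]
    have : (fun x : E d => x + 0) = id := by funext x; simp
    simp only [this]
    exact Lp.compMeasurePreserving_id_apply u
  cont := trans_cont

theorem trans_toLp {f : E d → ℝ} (hf : MemLp f 2 volume) (v : E d) :
    trans d v (hf.toLp f) = (hf.comp_measurePreserving (mp_add v)).toLp _ := rfl

theorem inner_toLp {f g : E d → ℝ} (hf : MemLp f 2 volume) (hg : MemLp g 2 volume) :
    ⟪hf.toLp f, hg.toLp g⟫ = ∫ x, f x * g x := by
  rw [L2.inner_def]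
  apply integral_congr_ae
  filter_upwards [hf.coeFn_toLp, hg.coeFn_toLp] with x h1 h2
  rw [h1, h2]
  simp [mul_comm]

theorem norm_sq_toLp {f : E d → ℝ} (hf : MemLp f 2 volume) :
    ‖hf.toLp f‖ ^ 2 = ∫ x, f x ^ 2 := by
  rw [← real_inner_self_eq_norm_sq, inner_toLp hf hf]
  simp only [sq]

/-- A measurable integrable function with values in `[-1, 1]` is in `L²`. -/
theorem memLp_two_of {f : E d → ℝ} (hf : Measurable f) (hi : Integrable f)
    (hb : ∀ x, |f x| ≤ 1) : MemLp f 2 volume := by
  rw [memLp_two_iff_integrable_sq hf.aestronglyMeasurable]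
  apply hi.abs.mono' (hf.pow_const 2).aestronglyMeasurable
  filter_upwards with x
  rw [Real.norm_eq_abs, abs_pow, sq]
  have := hb x
  have h0 := abs_nonneg (f x)
  nlinarith

section average

variable {Ω : Type} [MeasurableSpace Ω] [TopologicalSpace Ω] [OpensMeasurableSpace Ω]
  [SecondCountableTopologyEither Ω (L2 d)] [CompactSpace Ω]
  (μ : Measure Ω) [IsProbabilityMeasure μ]

/-- The average of translates of a function. -/
noncomputable def avg (y : Ω → E d) (f : E d → ℝ) (x : E d) : ℝ := ∫ ω, f (x + y ω) ∂μ

variable {μ}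
variable {y : Ω → E d} {f : E d → ℝ}

theorem avg_measurable (hy : Measurable y) (hf : Measurable f) : Measurable (avg μ y f) := by
  have : StronglyMeasurable (fun p : E d × Ω => f (p.1 + y p.2)) :=
    (hf.comp (measurable_fst.add (hy.comp measurable_snd))).stronglyMeasurable
  exact this.integral_prod_right'.measurable

theorem int_bdd (hy : Measurable y) (hf : Measurable f) (h1 : ∀ x, |f x| ≤ 1) (x : E d) :
    Integrable (fun ω => f (x + y ω)) μ := by
  apply Integrable.mono' (integrable_const (1 : ℝ))
  · exact (hf.comp (measurable_const.add hy)).aestronglyMeasurable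
  · exact ae_of_all _ (fun ω => h1 _)

theorem avg_nonneg (h0 : ∀ x, 0 ≤ f x) (x : E d) : 0 ≤ avg μ y f x :=
  integral_nonneg (fun _ => h0 _)

theorem avg_le_one (hy : Measurable y) (hf : Measurable f) (h0 : ∀ x, 0 ≤ f x)
    (h1 : ∀ x, f x ≤ 1) (x : E d) : avg μ y f x ≤ 1 := by
  have h := integral_mono (μ := μ) (int_bdd hy hf (fun x => by rw [abs_of_nonneg (h0 x)]; exact h1 x) x)
    (integrable_const (1 : ℝ)) (fun ω => h1 (x + y ω))
  simpa [avg] using h

theorem integrable_shift (hy : Measurable y) (hf : Measurable f) (hi : Integrable f) :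
    Integrable (fun p : E d × Ω => f (p.1 + y p.2)) (volume.prod μ) := by
  have hm : Measurable (fun p : E d × Ω => f (p.1 + y p.2)) :=
    hf.comp (measurable_fst.add (hy.comp measurable_snd))
  rw [integrable_prod_iff' hm.aestronglyMeasurable]
  constructor
  · filter_upwards with ω
    exact hi.comp_add_right (y ω)
  · have : ∀ ω, ∫ x, ‖f (x + y ω)‖ = ∫ x, ‖f x‖ := fun ω =>
      integral_add_right_eq_self (fun x => ‖f x‖) (y ω)
    simp only [this]
    exact integrable_const _

theorem integral_avg (hy : Measurable y) (hf : Measurable f) (hi : Integrable f) :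
    ∫ x, avg μ y f x = ∫ x, f x := by
  unfold avg
  rw [integral_integral_swap (integrable_shift hy hf hi)]
  have : ∀ ω, ∫ x, f (x + y ω) = ∫ x, f x := fun ω =>
    integral_add_right_eq_self f (y ω)
  simp only [this]
  simp

theorem avg_integrable (hy : Measurable y) (hf : Measurable f) (hi : Integrable f) :
    Integrable (avg μ y f) :=
  (integrable_shift hy hf hi).integral_prod_left

theorem avg_toLp (hy : Continuous y) (hf : Measurable f) (hf2 : MemLp f 2 volume) (hg2 : MemLp (avg μ y f) 2 volume) :
    hg2.toLp _ = ∫ ω, trans d (y ω) (hf2.toLp f) ∂μ := by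
  apply ext_inner_right ℝ
  intro w
  have hint : Integrable (fun ω => trans d (y ω) (hf2.toLp f)) μ := by
    have hc : Continuous (fun ω => trans d (y ω) (hf2.toLp f)) := (trans_cont _).comp hy
    apply Integrable.mono' (integrable_const ‖hf2.toLp f‖) hc.aestronglyMeasurable
    filter_upwards with ω
    exact ((l2Rep d).norm_τ _ _).le
  rw [real_inner_comm w (∫ ω, trans d (y ω) (hf2.toLp f) ∂μ), ← integral_inner hint]
  have hw : MemLp (w : E d → ℝ) 2 volume := Lp.memLp w
  have e1 : ⟪hg2.toLp _, w⟫ = ∫ x, avg μ y f x * w x := by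
    conv_lhs => rw [← Lp.toLp_coeFn w hw]
    exact inner_toLp hg2 hw
  have e2 : ∀ ω, ⟪w, trans d (y ω) (hf2.toLp f)⟫ = ∫ x, f (x + y ω) * w x := by
    intro ω
    rw [real_inner_comm, trans_toLp]
    conv_lhs => rw [← Lp.toLp_coeFn w hw]
    exact inner_toLp _ hw
  rw [e1]
  simp only [e2]
  have hwm : AEStronglyMeasurable (w : E d → ℝ) volume := hw.1
  have hm : AEStronglyMeasurable (fun p : E d × Ω => f (p.1 + y p.2) * w p.1)
      (volume.prod μ) := by
    apply AEStronglyMeasurable.mul
    · exact (hf.comp (measurable_fst.add (hy.measurable.comp measurable_snd))).aestronglyMeasurable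
    · exact hwm.comp_fst
  have hmul : ∀ ω, Integrable (fun x => f (x + y ω) * w x) := fun ω =>
    (hf2.comp_measurePreserving (mp_add (y ω))).integrable_mul hw
  have hI : Integrable (fun p : E d × Ω => f (p.1 + y p.2) * w p.1) (volume.prod μ) := by
    rw [integrable_prod_iff' hm]
    refine ⟨ae_of_all _ hmul, ?_⟩
    apply Integrable.mono' (integrable_const (‖hf2.toLp f‖ * ‖hw.norm.toLp _‖))
    · exact hm.norm.prod_swap.integral_prod_right'
    · filter_upwards with ω
      have hn : MemLp (fun x => ‖f (x + y ω)‖) 2 volume :=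
        (hf2.comp_measurePreserving (mp_add (y ω))).norm
      rw [Real.norm_of_nonneg (integral_nonneg (fun _ => norm_nonneg _))]
      simp only [norm_mul]
      rw [← inner_toLp hn hw.norm]
      refine (real_inner_le_norm _ _).trans ?_
      apply mul_le_mul_of_nonneg_right _ (norm_nonneg _)
      have h3 : ‖hn.toLp _‖ ^ 2 = ‖hf2.toLp f‖ ^ 2 := by
        rw [norm_sq_toLp, norm_sq_toLp]
        simp only [Real.norm_eq_abs, sq_abs]
        exact integral_add_right_eq_self (fun x => f x ^ 2) (y ω)
      exact (pow_le_pow_iff_left₀ (norm_nonneg _) (norm_nonneg _) (by norm_num)).mp h3.le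
  unfold avg
  rw [← integral_integral_swap hI]
  apply integral_congr_ae
  filter_upwards with x
  rw [← integral_mul_const]

end average

end Pool.Agent.H16.Simp
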