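import Pool.Agent.H16.Simp.DataB
import Pool.Agent.H16.Simp.Indep
import Pool.Agent.H16.Simp.Geom

/-!
# Simplices in sets of upper density larger than `2/5`
-/

open MeasureTheory Measure Metric Filter Topology
open scoped RealInnerProductSpace

set_option linter.unusedSectionVars false

namespace Pool.Agent.H16.Simp

variable {d : ℕ}

/-- The product of the translates of `f`. -/
noncomputable def prodF {ι : Type} [Fintype ι] (f : E d → ℝ) (l : ℝ) (q : ι → E d)
    (z : E d × Rot d) : ℝ := ∏ i, f (z.1 + l • act z.2 (q i))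

section

variable {C ε l V : ℝ} {f g : E d → ℝ}

theorem meas_factor (hf : Measurable f) (v : E d) :
    Measurable (fun z : E d × Rot d => f (z.1 + l • act z.2 v)) := by
  apply hf.comp
  have h : Continuous (fun z : E d × Rot d => z.1 + l • act z.2 v) :=
    continuous_fst.add ((continuous_act.comp (continuous_snd.prodMk continuous_const)).const_smul l)
  exact h.measurable

theorem prodF_integrable {ι : Type} [Fintype ι] [Nonempty ι] (h : Good d C ε f g l V)
    (q : ι → E d) : Integrable (prodF f l q) (volume.prod (rotHaar d)) := by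
  classical
  obtain ⟨i₀⟩ := ‹Nonempty ι›
  have h1 : Integrable (fun z : E d × Rot d => f (z.1 + l • act z.2 (q i₀)))
      (volume.prod (rotHaar d)) := by
    have hy : Continuous (fun R : Rot d => l • act R (q i₀)) :=
      (continuous_act.comp (continuous_id.prodMk continuous_const)).const_smul l
    exact integrable_shift hy.measurable h.f_meas h.f_int
  apply h1.mono'
  · exact (Finset.measurable_prod _ (fun i _ => meas_factor h.f_meas (q i))).aestronglyMeasurable
  · filter_upwards with z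
    have h0 : 0 ≤ prodF f l q z := Finset.prod_nonneg (fun i _ => h.f_nonneg _)
    rw [Real.norm_of_nonneg h0]
    unfold prodF
    rw [← Finset.mul_prod_erase Finset.univ _ (Finset.mem_univ i₀)]
    calc _ ≤ f (z.1 + l • act z.2 (q i₀)) * 1 := by
          apply mul_le_mul_of_nonneg_left _ (h.f_nonneg _)
          exact Finset.prod_le_one (fun i _ => h.f_nonneg _) (fun i _ => h.f_le_one _)
      _ = _ := mul_one _

theorem prodF_integral {ι : Type} [Fintype ι] [Nonempty ι] (h : Good d C ε f g l V)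
    (q : ι → E d) : ∫ z, prodF f l q z ∂(volume.prod (rotHaar d)) =
      ∫ R, (∫ x, ∏ i, f (x + l • act R (q i))) ∂(rotHaar d) := by
  rw [integral_prod_symm _ (prodF_integrable h q)]
  rfl

theorem prodF_fam {K : Type} [Fintype K] (u v : E d) (p : K → E d) (z : E d × Rot d) :
    prodF f l (fam u v p) z = f (z.1 + l • act z.2 u) * (f (z.1 + l • act z.2 v) *
      prodF f l p z) := by
  unfold prodF
  rw [Fintype.prod_option, Fintype.prod_option]
  rfl

theorem prodF_fam1 {K : Type} [Fintype K] (u : E d) (p : K → E d) (z : E d × Rot d) :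
    prodF f l (fam1 u p) z = f (z.1 + l • act z.2 u) * prodF f l p z := by
  unfold prodF
  rw [Fintype.prod_option]
  rfl

end

/-- The pointwise inequality. -/
theorem pointwise (z y x w π : ℝ) (hz : z = 0 ∨ z = 1) (hy : y = 0 ∨ y = 1) (hx : x = 0 ∨ x = 1)
    (hw : w = 0 ∨ w = 1) (hπ : 0 ≤ π) (h1 : z * y * x * π = 0) (h2 : z * y * w * π = 0) :
    0 ≤ z * π + y * π + x * (w * π) - z * (x * π) - 2 * (z * (y * π)) - y * (x * π)
      - z * (w * π) - y * (w * π) := by
  rcases hz with rfl | rfl <;> rcases hy with rfl | rfl <;> rcases hx with rfl | rfl <;>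
    rcases hw with rfl | rfl <;> norm_num at * <;> linarith

theorem card_K {i j a : Fin (d + 1)} (hij : i ≠ j) (hia : i ≠ a) (hja : j ≠ a) :
    Fintype.card {k : Fin (d + 1) // k ≠ i ∧ k ≠ j ∧ k ≠ a} + 3 = d + 1 := by
  classical
  have h1 : Fintype.card {k : Fin (d + 1) // k ≠ i ∧ k ≠ j ∧ k ≠ a} =
      (Finset.univ \ ({i, j, a} : Finset (Fin (d + 1)))).card := by
    rw [Fintype.card_subtype]
    congr 1
    ext k
    simp
  have h2 : ({i, j, a} : Finset (Fin (d + 1))).card = 3 := by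
    rw [Finset.card_insert_of_notMem, Finset.card_insert_of_notMem, Finset.card_singleton]
    · simpa using hja
    · simp only [Finset.mem_insert, Finset.mem_singleton, not_or]
      exact ⟨hij, hia⟩
  have h3 := Finset.card_sdiff_add_card_eq_card (Finset.subset_univ ({i, j, a} : Finset (Fin (d + 1))))
  rw [h2, Finset.card_univ, Fintype.card_fin] at h3
  rw [h1]
  exact h3

/-- The integral inequality for the local density. -/
theorem dens_ineq {C ε l V θ : ℝ} {f g : E d → ℝ} (h : Good d C ε f g l V) (m : ℕ)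
    (hε : 0 ≤ ε) (hθ : θ * V ≤ ∫ x, f x) (hm : 1 ≤ m) :
    (2 / 5) ^ m * (5 * θ - 2 * (1 + ε)) * V ≤
      5 * (∫ x, g x ^ (m + 1)) - 2 * (∫ x, g x ^ m) := by
  obtain ⟨B, hB, hBV, hgB⟩ := h.supp
  have hV := h.V_pos
  have hBfin : volume B ≠ ⊤ := ne_top_of_le_ne_top ENNReal.ofReal_ne_top hBV
  have hpow : ∀ k, 1 ≤ k → Integrable (fun x => g x ^ k) := by
    intro k hk
    apply h.g_int.mono' (h.g_meas.pow_const k).aestronglyMeasurable
    filter_upwards with x
    rw [Real.norm_of_nonneg (pow_nonneg (h.g_nonneg x) k)]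
    calc g x ^ k ≤ g x ^ 1 := pow_le_pow_of_le_one (h.g_nonneg x) (h.g_le_one x) hk
      _ = g x := pow_one _
  have hind : Integrable (B.indicator (fun _ => (1 : ℝ))) :=
    (integrable_indicator_iff hB).mpr (integrableOn_const hBfin)
  have hindint : ∫ x, B.indicator (fun _ => (1 : ℝ)) x = (volume B).toReal := by
    rw [integral_indicator_const _ hB]; simp [Measure.real]
  have hBr : (volume B).toReal ≤ (1 + ε) * V := by
    have := ENNReal.toReal_mono ENNReal.ofReal_ne_top hBV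
    rwa [ENNReal.toReal_ofReal (by positivity)] at this
  have key : ∀ x, (2 / 5 : ℝ) ^ m * (5 * g x - 2 * B.indicator (fun _ => (1 : ℝ)) x) ≤
      5 * g x ^ (m + 1) - 2 * g x ^ m := by
    intro x
    by_cases hx : x ∈ B
    · rw [Set.indicator_of_mem hx]
      have h1 : 5 * g x ^ (m + 1) - 2 * g x ^ m = g x ^ m * (5 * g x - 2) := by ring
      rw [h1, mul_one]
      rcases le_total (2 / 5) (g x) with h2 | h2
      · apply mul_le_mul_of_nonneg_right _ (by linarith)
        exact pow_le_pow_left₀ (by norm_num) h2 m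
      · apply mul_le_mul_of_nonpos_right _ (by linarith)
        exact pow_le_pow_left₀ (h.g_nonneg x) h2 m
    · rw [Set.indicator_of_notMem hx, hgB x hx]
      have : m ≠ 0 := by omega
      simp [this]
  have h3 : ∫ x, (2 / 5 : ℝ) ^ m * (5 * g x - 2 * B.indicator (fun _ => (1 : ℝ)) x) ≤
      ∫ x, (5 * g x ^ (m + 1) - 2 * g x ^ m) := by
    apply integral_mono
    · exact ((h.g_int.const_mul 5).sub (hind.const_mul 2)).const_mul _
    · exact ((hpow (m + 1) (by omega)).const_mul 5).sub ((hpow m hm).const_mul 2)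
    · exact key
  rw [integral_const_mul, integral_sub (h.g_int.const_mul 5) (hind.const_mul 2),
    integral_const_mul, integral_const_mul, hindint,
    integral_sub ((hpow (m + 1) (by omega)).const_mul 5) ((hpow m hm).const_mul 2),
    integral_const_mul, integral_const_mul, h.int_eq] at h3
  refine le_trans ?_ h3
  rw [mul_assoc]
  apply mul_le_mul_of_nonneg_left _ (by positivity)
  nlinarith

theorem lin8 {Ω : Type} [MeasurableSpace Ω] {μ : Measure Ω} {u1 u2 u3 u4 u5 u6 u7 u8 : Ω → ℝ}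
    (h1 : Integrable u1 μ) (h2 : Integrable u2 μ) (h3 : Integrable u3 μ) (h4 : Integrable u4 μ)
    (h5 : Integrable u5 μ) (h6 : Integrable u6 μ) (h7 : Integrable u7 μ) (h8 : Integrable u8 μ) :
    ∫ z, (u1 z + u2 z + u8 z - u4 z - 2 * u3 z - u5 z - u6 z - u7 z) ∂μ =
      (∫ z, u1 z ∂μ) + (∫ z, u2 z ∂μ) + (∫ z, u8 z ∂μ) - (∫ z, u4 z ∂μ)
        - 2 * (∫ z, u3 z ∂μ) - (∫ z, u5 z ∂μ) - (∫ z, u6 z ∂μ) - (∫ z, u7 z ∂μ) := by
  have a1 : Integrable (fun z => u1 z + u2 z) μ := h1.add h2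
  have a2 : Integrable (fun z => u1 z + u2 z + u8 z) μ := a1.add h8
  have a3 : Integrable (fun z => u1 z + u2 z + u8 z - u4 z) μ := a2.sub h4
  have a4' : Integrable (fun z => 2 * u3 z) μ := h3.const_mul 2
  have a4 : Integrable (fun z => u1 z + u2 z + u8 z - u4 z - 2 * u3 z) μ := a3.sub a4'
  have a5 : Integrable (fun z => u1 z + u2 z + u8 z - u4 z - 2 * u3 z - u5 z) μ := a4.sub h5
  have a6 : Integrable (fun z => u1 z + u2 z + u8 z - u4 z - 2 * u3 z - u5 z - u6 z) μ :=
    a5.sub h6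
  rw [integral_sub a6 h7, integral_sub a5 h6, integral_sub a4 h5, integral_sub a3 a4',
    integral_sub a2 h4, integral_add a1 h8, integral_add h1 h2, integral_const_mul]

theorem main_measurable (hd : 2 ≤ d) (P : Fin (d + 1) → E d) (hP : AffineIndependent ℝ P)
    (A : Set (E d)) (hA : MeasurableSet A) (hdens : 2 / 5 < upperDensity A) :
    ∃ l₀ : ℝ, ∀ l : ℝ, l₀ ≤ l →
      ∃ (x : E d) (O : E d ≃ₗᵢ[ℝ] E d), ∀ i, x + O (l • P i) ∈ A := by
  classical
  by_contra hcon
  push Not at hcon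
  obtain ⟨i, j, a, hij, hia, hja, w, t, U, hU, hw, hg⟩ := simplex_geom hd P hP
  set p : {k : Fin (d + 1) // k ≠ i ∧ k ≠ j ∧ k ≠ a} → E d := fun k => P k with hp
  obtain ⟨g1, g2, g3, g4, g5, g6, g7, g8⟩ := hg
  have hK := card_K hij hia hja
  have hc1 : Fintype.card (Option {k : Fin (d + 1) // k ≠ i ∧ k ≠ j ∧ k ≠ a}) = d - 1 := by
    rw [Fintype.card_option]; omega
  have hc2 : Fintype.card (Option (Option {k : Fin (d + 1) // k ≠ i ∧ k ≠ j ∧ k ≠ a})) = d := by
    rw [Fintype.card_option, Fintype.card_option]; omega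
  obtain ⟨θ, hθ1, hθ2⟩ := exists_between hdens
  set σ : ℝ := 5 * θ - 2 with hσ
  have hσ0 : 0 < σ := by rw [hσ]; linarith
  set ε' : ℝ := (2 / 5) ^ (d - 1) * (σ / 2) / 20 with hε'
  have hε'0 : 0 < ε' := by positivity
  obtain ⟨C1, hC1, e1, he1, H1⟩ := indep hd _ g1 (by omega) ε' hε'0
  obtain ⟨C2, hC2, e2, he2, H2⟩ := indep hd _ g2 (by omega) ε' hε'0
  obtain ⟨C3, hC3, e3, he3, H3⟩ := indep hd _ g3 (by omega) ε' hε'0
  obtain ⟨C4, hC4, e4, he4, H4⟩ := indep hd _ g4 (by omega) ε' hε'0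
  obtain ⟨C5, hC5, e5, he5, H5⟩ := indep hd _ g5 (by omega) ε' hε'0
  obtain ⟨C6, hC6, e6, he6, H6⟩ := indep hd _ g6 (by omega) ε' hε'0
  obtain ⟨C7, hC7, e7, he7, H7⟩ := indep hd _ g7 (by omega) ε' hε'0
  obtain ⟨C8, hC8, e8, he8, H8⟩ := indep hd _ g8 (by omega) ε' hε'0
  set C : ℝ := C1 + C2 + C3 + C4 + C5 + C6 + C7 + C8 with hC
  set ε : ℝ := min (σ / 4) (min e1 (min e2 (min e3 (min e4 (min e5 (min e6 (min e7 e8)))))))
    with hε
  have hε0 : 0 < ε := by
    rw [hε]
    exact lt_min (by positivity) (lt_min he1 (lt_min he2 (lt_min he3 (lt_min he4 (lt_min he5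
      (lt_min he6 (lt_min he7 he8)))))))
  have hεσ : ε ≤ σ / 4 := min_le_left _ _
  obtain ⟨f, g, l, V, hbad, hgood, hfA, hmass⟩ := exists_good hd A hA θ (by linarith) hθ2
    (fun l => ∀ (x : E d) (O : E d ≃ₗᵢ[ℝ] E d), ∃ i, x + O (l • P i) ∉ A) hcon C
    (by rw [hC]; linarith) ε hε0
  have hV := hgood.V_pos
  have em : ∀ {e}, ε ≤ e → ∀ {D}, 1 ≤ D → D ≤ C → Good d D e f g l V := by
    intro e h1 D h2 h3
    exact hgood.mono h3 h2 h1
  have ee : ε ≤ e1 ∧ ε ≤ e2 ∧ ε ≤ e3 ∧ ε ≤ e4 ∧ ε ≤ e5 ∧ ε ≤ e6 ∧ ε ≤ e7 ∧ ε ≤ e8 := by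
    rw [hε]
    simp only [min_le_iff, le_refl, true_or, or_true, and_self]
  obtain ⟨f1, f2, f3, f4, f5, f6, f7, f8⟩ := ee
  have K1 := H1 f g l V (em f1 hC1 (by rw [hC]; linarith))
  have K2 := H2 f g l V (em f2 hC2 (by rw [hC]; linarith))
  have K3 := H3 f g l V (em f3 hC3 (by rw [hC]; linarith))
  have K4 := H4 f g l V (em f4 hC4 (by rw [hC]; linarith))
  have K5 := H5 f g l V (em f5 hC5 (by rw [hC]; linarith))
  have K6 := H6 f g l V (em f6 hC6 (by rw [hC]; linarith))
  have K7 := H7 f g l V (em f7 hC7 (by rw [hC]; linarith))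
  have K8 := H8 f g l V (em f8 hC8 (by rw [hC]; linarith))
  rw [← prodF_integral hgood, hc1] at K1 K2
  rw [← prodF_integral hgood, hc2] at K3 K4 K5 K6 K7 K8
  -- the values of `f`
  have h01 : ∀ x, f x = 0 ∨ f x = 1 := fun x => (hfA x).imp id (fun h => h.1)
  have hin : ∀ x, f x ≠ 0 → x ∈ A := fun x hx => by
    rcases hfA x with h | h
    · exact absurd h hx
    · exact h.2
  have hvan1 : ∀ z : E d × Rot d, f (z.1 + l • act z.2 (P i)) * f (z.1 + l • act z.2 (P j)) *
      f (z.1 + l • act z.2 (P a)) * prodF f l p z = 0 := by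
    intro z
    by_contra hne
    obtain ⟨k, hk⟩ := hbad z.1 (toIso z.2)
    apply hk
    rw [toIso_apply, act_smul]
    apply hin
    simp only [mul_ne_zero_iff] at hne
    obtain ⟨⟨⟨n1, n2⟩, n3⟩, n4⟩ := hne
    by_cases k1 : k = i
    · rw [k1]; exact n1
    by_cases k2 : k = j
    · rw [k2]; exact n2
    by_cases k3 : k = a
    · rw [k3]; exact n3
    exact Finset.prod_ne_zero_iff.mp n4 ⟨k, k1, k2, k3⟩ (Finset.mem_univ _)
  have hvan2 : ∀ z : E d × Rot d, f (z.1 + l • act z.2 (P i)) * f (z.1 + l • act z.2 (P j)) *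
      f (z.1 + l • act z.2 w) * prodF f l p z = 0 := by
    intro z
    by_contra hne
    obtain ⟨k, hk⟩ := hbad (z.1 + l • act z.2 t) (toIso (z.2 * U))
    apply hk
    have e1 : z.1 + l • act z.2 t + toIso (z.2 * U) (l • P k) =
        z.1 + l • act z.2 (t + act U (P k)) := by
      rw [toIso_apply, act_smul, act_mul, act_add, smul_add, add_assoc]
    rw [e1]
    apply hin
    simp only [mul_ne_zero_iff] at hne
    obtain ⟨⟨⟨n1, n2⟩, n3⟩, n4⟩ := hne
    by_cases k3 : k = a
    · rw [k3, hw]; exact n3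
    rw [hU k k3]
    by_cases k1 : k = i
    · rw [k1]; exact n1
    by_cases k2 : k = j
    · rw [k2]; exact n2
    exact Finset.prod_ne_zero_iff.mp n4 ⟨k, k1, k2, k3⟩ (Finset.mem_univ _)
  have hπ : ∀ z, 0 ≤ prodF f l p z := fun z => Finset.prod_nonneg (fun i _ => hgood.f_nonneg _)
  have hpt : ∀ z : E d × Rot d, 0 ≤ prodF f l (fam1 (P i) p) z + prodF f l (fam1 (P j) p) z
      + prodF f l (fam (P a) w p) z - prodF f l (fam (P i) (P a) p) z
      - 2 * prodF f l (fam (P i) (P j) p) z - prodF f l (fam (P j) (P a) p) z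
      - prodF f l (fam (P i) w p) z - prodF f l (fam (P j) w p) z := by
    intro z
    simp only [prodF_fam, prodF_fam1]
    exact pointwise _ _ _ _ _ (h01 _) (h01 _) (h01 _) (h01 _) (hπ z) (hvan1 z) (hvan2 z)
  have i1 := prodF_integrable hgood (fam1 (P i) p)
  have i2 := prodF_integrable hgood (fam1 (P j) p)
  have i3 := prodF_integrable hgood (fam (P i) (P j) p)
  have i4 := prodF_integrable hgood (fam (P i) (P a) p)
  have i5 := prodF_integrable hgood (fam (P j) (P a) p)
  have i6 := prodF_integrable hgood (fam (P i) w p)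
  have i7 := prodF_integrable hgood (fam (P j) w p)
  have i8 := prodF_integrable hgood (fam (P a) w p)
  have hI : 0 ≤ ∫ z : E d × Rot d, (prodF f l (fam1 (P i) p) z + prodF f l (fam1 (P j) p) z
      + prodF f l (fam (P a) w p) z - prodF f l (fam (P i) (P a) p) z
      - 2 * prodF f l (fam (P i) (P j) p) z - prodF f l (fam (P j) (P a) p) z
      - prodF f l (fam (P i) w p) z - prodF f l (fam (P j) w p) z)
      ∂(volume.prod (rotHaar d)) := integral_nonneg hpt
  rw [lin8 i1 i2 i3 i4 i5 i6 i7 i8] at hI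
  have hdens' := dens_ineq hgood (d - 1) hε0.le hmass (by omega)
  have hd1 : d - 1 + 1 = d := by omega
  rw [hd1] at hdens'
  rw [abs_le] at K1 K2 K3 K4 K5 K6 K7 K8
  have hfin : (2 / 5 : ℝ) ^ (d - 1) * (5 * θ - 2 * (1 + ε)) * V ≤ 9 * (ε' * V) := by
    linarith [K1.1, K1.2, K2.1, K2.2, K3.1, K3.2, K4.1, K4.2, K5.1, K5.2, K6.1, K6.2, K7.1,
      K7.2, K8.1, K8.2]
  have h9 : (2 / 5 : ℝ) ^ (d - 1) * (σ / 2) * V ≤
      (2 / 5 : ℝ) ^ (d - 1) * (5 * θ - 2 * (1 + ε)) * V := by
    apply mul_le_mul_of_nonneg_right _ hV.le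
    apply mul_le_mul_of_nonneg_left _ (by positivity)
    rw [hσ] at hεσ ⊢
    linarith
  have h10 : (2 / 5 : ℝ) ^ (d - 1) * (σ / 2) * V = 20 * (ε' * V) := by
    rw [hε']; ring
  have h11 : 0 < ε' * V := mul_pos hε'0 hV
  linarith

theorem main (hd : 2 ≤ d) (P : Fin (d + 1) → E d) (hP : AffineIndependent ℝ P)
    (A : Set (E d)) (hA : NullMeasurableSet A volume) (hdens : 2 / 5 < upperDensity A) :
    ∃ l₀ : ℝ, ∀ l : ℝ, l₀ ≤ l →
      ∃ (x : E d) (O : E d ≃ₗᵢ[ℝ] E d), ∀ i, x + O (l • P i) ∈ A := by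
  obtain ⟨B, hBA, hBm, hBe⟩ := hA.exists_measurable_subset_ae_eq
  have h1 : upperDensity B = upperDensity A := by
    unfold upperDensity
    congr 1
    funext T
    have : volume (B ∩ box d T) = volume (A ∩ box d T) :=
      measure_congr (hBe.inter (ae_eq_refl (box d T)))
    rw [this]
  obtain ⟨l₀, h2⟩ := main_measurable hd P hP B hBm (by rw [h1]; exact hdens)
  refine ⟨l₀, fun l hl => ?_⟩
  obtain ⟨x, O, h3⟩ := h2 l hl
  exact ⟨x, O, fun i => hBA (h3 i)⟩

end Pool.Agent.H16.Simp
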