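import Pool.Agent.H16.Simp.Defs

/-!
# Reflections fixing a subspace and moving a vector; monotonicity of `Good`
-/

open MeasureTheory Measure Metric Filter Topology
open scoped RealInnerProductSpace

namespace Pool.Agent.H16.Simp

variable {d : ℕ}

theorem Good.mono {C ε C' ε' : ℝ} {f g : E d → ℝ} {l V : ℝ} (h : Good d C ε f g l V)
    (hC : C' ≤ C) (hC' : 1 ≤ C') (hε : ε ≤ ε') : Good d C' ε' f g l V := by
  have hV : 0 < V := h.V_pos
  have hεV : ε * V ≤ ε' * V := mul_le_mul_of_nonneg_right hε hV.le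
  refine ⟨h.V_pos, h.l_pos, h.f_meas, h.g_meas, h.f_nonneg, h.f_le_one, h.g_nonneg, h.g_le_one,
    h.f_int, h.g_int, h.f_mass, h.int_eq, ?_, ?_, ?_⟩
  · obtain ⟨B, hB, hv, hg⟩ := h.supp
    refine ⟨B, hB, hv.trans (ENNReal.ofReal_le_ofReal ?_), hg⟩
    nlinarith
  · obtain ⟨q, hq, hc⟩ := h.corr
    refine ⟨q, hq, fun c h1 h2 => ?_⟩
    have h3 : 1 / C ≤ ‖c‖ := (one_div_le_one_div_of_le (by linarith) hC).trans h1
    obtain ⟨h4, h5⟩ := hc c h3 (h2.trans hC)
    exact ⟨h4.trans hεV, h5.trans hεV⟩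
  · intro v hv
    exact (h.smooth v (hv.trans hC)).trans hεV

/-- The reflection in the hyperplane orthogonal to `a`. -/
theorem act_refl (a v : E d) : act (ofIso (Submodule.reflection (ℝ ∙ a)ᗮ)) v =
    v - (2 * (⟪a, v⟫ / ‖a‖ ^ 2)) • a := by
  rw [act_ofIso, Submodule.reflection_orthogonal_apply, Submodule.reflection_singleton_apply]
  simp only [RCLike.ofReal_real_eq_id, id_eq]
  rw [two_smul, two_mul, add_smul]
  abel

theorem exists_reflections (W : Submodule ℝ (E d)) (hW : Module.finrank ℝ W + 2 ≤ d) (b : E d)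
    (hb : b ∉ W) (m : ℕ) : ∃ U : Fin m → Rot d, (∀ i, ∀ w ∈ W, act (U i) w = w) ∧
      Function.Injective (fun i => act (U i) b) := by
  obtain ⟨s, hs, t, ht, hst⟩ := W.exists_add_mem_mem_orthogonal b
  have ht0 : t ≠ 0 := by
    intro h
    apply hb
    rw [hst, h, add_zero]
    exact hs
  -- a vector `z` orthogonal to `W` and `t`
  obtain ⟨z, hz, hz0⟩ : ∃ z ∈ (W ⊔ (ℝ ∙ t))ᗮ, z ≠ 0 := by
    apply Submodule.exists_mem_ne_zero_of_ne_bot
    intro hbot
    have h1 := Submodule.finrank_add_finrank_orthogonal (𝕜 := ℝ) (W ⊔ (ℝ ∙ t))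
    rw [hbot, finrank_bot, add_zero, finrank_euclideanSpace_fin] at h1
    have h2 := Submodule.finrank_add_le_finrank_add_finrank W (ℝ ∙ t)
    have h3 := finrank_span_singleton (K := ℝ) ht0
    omega
  have hzW : ∀ w ∈ W, ⟪w, z⟫ = 0 := fun w hw =>
    (Submodule.mem_orthogonal _ _).1 hz w (Submodule.mem_sup_left hw)
  have hzt : ⟪t, z⟫ = 0 := (Submodule.mem_orthogonal _ _).1 hz t
    (Submodule.mem_sup_right (Submodule.mem_span_singleton_self t))
  have htW : ∀ w ∈ W, ⟪w, t⟫ = 0 := fun w hw => (Submodule.mem_orthogonal _ _).1 ht w hw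
  have hT : 0 < ‖t‖ ^ 2 := by positivity
  have hZ : 0 < ‖z‖ ^ 2 := by
    have := norm_pos_iff.2 hz0
    positivity
  refine ⟨fun i => ofIso (Submodule.reflection (ℝ ∙ (t + (i.val : ℝ) • z))ᗮ), ?_, ?_⟩
  · intro i w hw
    rw [act_refl]
    have : ⟪t + (i.val : ℝ) • z, w⟫ = 0 := by
      rw [real_inner_comm, inner_add_right, inner_smul_right, htW w hw, hzW w hw]
      simp
    rw [this]
    simp
  · intro i j hij
    simp only [act_refl] at hij
    have hnorm : ∀ c : ℝ, ‖t + c • z‖ ^ 2 = ‖t‖ ^ 2 + c ^ 2 * ‖z‖ ^ 2 := by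
      intro c
      rw [norm_add_sq_real, inner_smul_right, hzt, norm_smul]
      simp only [mul_zero, add_zero, mul_pow]
      rw [Real.norm_eq_abs, sq_abs]
    have hin : ∀ c : ℝ, ⟪t + c • z, b⟫ = ‖t‖ ^ 2 := by
      intro c
      rw [hst, inner_add_right, inner_add_left, inner_add_left, inner_smul_left, inner_smul_left,
        real_inner_comm s t, htW s hs, real_inner_comm s z, hzW s hs, real_inner_comm t z, hzt,
        real_inner_self_eq_norm_sq]
      simp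
    have hin2 : ∀ c : ℝ, ⟪t + c • z, t⟫ = ‖t‖ ^ 2 := by
      intro c
      rw [inner_add_left, inner_smul_left, real_inner_comm t z, hzt, real_inner_self_eq_norm_sq]
      simp
    have h1 := congrArg (fun v => ⟪v, t⟫) hij
    simp only [inner_sub_left, inner_smul_left, hin, hin2, hnorm] at h1
    simp only [conj_trivial] at h1
    have hi : 0 < ‖t‖ ^ 2 + (i.val : ℝ) ^ 2 * ‖z‖ ^ 2 := by positivity
    have hj : 0 < ‖t‖ ^ 2 + (j.val : ℝ) ^ 2 * ‖z‖ ^ 2 := by positivity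
    have h2 : ‖t‖ ^ 2 / (‖t‖ ^ 2 + (i.val : ℝ) ^ 2 * ‖z‖ ^ 2) =
        ‖t‖ ^ 2 / (‖t‖ ^ 2 + (j.val : ℝ) ^ 2 * ‖z‖ ^ 2) := by
      have h3 := sub_right_inj.1 h1
      have h4 := mul_right_cancel₀ hT.ne' h3
      exact mul_left_cancel₀ two_ne_zero h4
    rw [div_eq_div_iff hi.ne' hj.ne'] at h2
    have h3 := mul_left_cancel₀ hT.ne' h2
    have h4 : (j.val : ℝ) ^ 2 = (i.val : ℝ) ^ 2 := by
      have : (j.val : ℝ) ^ 2 * ‖z‖ ^ 2 = (i.val : ℝ) ^ 2 * ‖z‖ ^ 2 := by linarith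
      exact mul_right_cancel₀ hZ.ne' this
    have h5 : (j.val : ℝ) = (i.val : ℝ) := by
      have hi0 : (0 : ℝ) ≤ i.val := by positivity
      have hj0 : (0 : ℝ) ≤ j.val := by positivity
      nlinarith [sq_nonneg ((j.val : ℝ) - i.val)]
    have h6 : j.val = i.val := by exact_mod_cast h5
    exact (Fin.ext h6).symm

end Pool.Agent.H16.Simp
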