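import Mathlib

/-!
# The orthogonal group with its Haar probability measure
-/

open MeasureTheory Measure Metric

set_option linter.unusedSectionVars false

namespace Pool.Agent.H16.Simp

/-- Euclidean space. -/
abbrev E (d : ℕ) : Type := EuclideanSpace ℝ (Fin d)

instance (d : ℕ) : ContinuousStar (E d →L[ℝ] E d) :=
  ⟨(ContinuousLinearMap.adjoint (𝕜 := ℝ) (E := E d) (F := E d)).continuous⟩

/-- The orthogonal group of `E d`. -/
abbrev Rot (d : ℕ) : Type := unitary (E d →L[ℝ] E d)

variable {d : ℕ}

/-- The action of a rotation on a vector. -/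
noncomputable def act (R : Rot d) (v : E d) : E d := (R : E d →L[ℝ] E d) v

noncomputable instance : MeasurableSpace (Rot d) := borel _
instance : BorelSpace (Rot d) := ⟨rfl⟩

theorem act_mul (R U : Rot d) (v : E d) : act (R * U) v = act R (act U v) := rfl

theorem act_one (v : E d) : act (1 : Rot d) v = v := rfl

theorem act_add (R : Rot d) (v w : E d) : act R (v + w) = act R v + act R w := map_add _ _ _

theorem act_sub (R : Rot d) (v w : E d) : act R (v - w) = act R v - act R w := map_sub _ _ _

theorem act_smul (R : Rot d) (c : ℝ) (v : E d) : act R (c • v) = c • act R v := map_smul _ _ _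

theorem act_neg (R : Rot d) (v : E d) : act R (-v) = -act R v := map_neg _ _

theorem act_zero (R : Rot d) : act R (0 : E d) = 0 := map_zero _

theorem norm_act (R : Rot d) (v : E d) : ‖act R v‖ = ‖v‖ := Unitary.norm_map R v

/-- A linear isometry as an element of `Rot d`. -/
noncomputable def ofIso (U : E d ≃ₗᵢ[ℝ] E d) : Rot d := Unitary.linearIsometryEquiv.symm U

theorem act_ofIso (U : E d ≃ₗᵢ[ℝ] E d) (v : E d) : act (ofIso U) v = U v := rfl

/-- An element of `Rot d` as a linear isometry. -/
noncomputable def toIso (R : Rot d) : E d ≃ₗᵢ[ℝ] E d := Unitary.linearIsometryEquiv R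

theorem toIso_apply (R : Rot d) (v : E d) : toIso R v = act R v := rfl

theorem continuous_act : Continuous (fun x : Rot d × E d => act x.1 x.2) := by
  unfold act
  exact (continuous_subtype_val.comp continuous_fst).clm_apply continuous_snd

instance : CompactSpace (Rot d) := by
  have h : IsCompact ((unitary (E d →L[ℝ] E d) : Submonoid (E d →L[ℝ] E d)) :
      Set (E d →L[ℝ] E d)) := by
   apply Metric.isCompact_of_isClosed_isBounded
   · exact isClosed_unitary
   · rw [Metric.isBounded_iff_subset_closedBall 0]
     refine ⟨1, ?_⟩
     intro A hA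
     rw [mem_closedBall_zero_iff]
     apply ContinuousLinearMap.opNorm_le_bound _ (by norm_num)
     intro x
     rw [one_mul]
     exact (Unitary.norm_map (⟨A, hA⟩ : unitary (E d →L[ℝ] E d)) x).le
  exact isCompact_iff_compactSpace.mp h

/-- The Haar probability measure of the orthogonal group. -/
noncomputable def rotHaar (d : ℕ) : Measure (Rot d) :=
  haarMeasure ⟨⟨Set.univ, isCompact_univ⟩, by simp⟩

instance : IsHaarMeasure (rotHaar d) := by unfold rotHaar; infer_instance

instance : IsProbabilityMeasure (rotHaar d) :=
  ⟨by
    have := haarMeasure_self (G := Rot d) (K₀ := ⟨⟨Set.univ, isCompact_univ⟩, by simp⟩)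
    exact this⟩

instance : SecondCountableTopology (Rot d) := by infer_instance

instance : IsMulRightInvariant (rotHaar d) := by
  constructor
  intro g
  have h1 : IsMulLeftInvariant (map (· * g) (rotHaar d)) := by infer_instance
  have hm : Measurable (fun x : Rot d => x * g) := (continuous_mul_const g).measurable
  have h2 : IsProbabilityMeasure (map (· * g) (rotHaar d)) :=
    isProbabilityMeasure_map hm.aemeasurable
  have h3 : IsHaarMeasure (map (· * g) (rotHaar d)) := by
    have h4 : IsOpenPosMeasure (map (· * g) (rotHaar d)) := by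
      refine ⟨fun U hU hne => ?_⟩
      rw [map_apply hm hU.measurableSet]
      obtain ⟨u, hu⟩ := hne
      exact (hU.preimage (continuous_mul_const g)).measure_ne_zero (rotHaar d)
        ⟨u * g⁻¹, by simpa using hu⟩
    exact { lt_top_of_isCompact := fun K _ => measure_lt_top _ _
            map_mul_left_eq_self := h1.map_mul_left_eq_self
            open_pos := h4.open_pos }
  exact isHaarMeasure_eq_of_isProbabilityMeasure _ _

theorem mp_mul_right (U : Rot d) : MeasurePreserving (fun R : Rot d => R * U) (rotHaar d)
    (rotHaar d) := measurePreserving_mul_right _ U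

theorem mp_mul_left (U : Rot d) : MeasurePreserving (fun R : Rot d => U * R) (rotHaar d)
    (rotHaar d) := measurePreserving_mul_left _ U

/-- The orthogonal group is transitive on spheres. -/
theorem exists_rot {v w : E d} (h : ‖v‖ = ‖w‖) : ∃ U : Rot d, act U v = w := by
  refine ⟨ofIso (Submodule.reflection (ℝ ∙ (v - w))ᗮ), ?_⟩
  rw [act_ofIso]
  exact Submodule.reflection_sub h

end Pool.Agent.H16.Simp
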