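import Pool.Agent.H16.Simp.Defs

/-!
# Selection of a stable scale: the analytic core (job SIMP-D, helper39)
-/

open MeasureTheory Measure Metric Filter Topology
open scoped RealInnerProductSpace

namespace Pool.Agent.H16.Simp

variable {d : ℕ}

section
variable {H : Type} [NormedAddCommGroup H] [InnerProductSpace ℝ H]

/-- Cauchy-Schwarz for the form `⟪a, b⟫ - ⟪L a, L b⟫`, `L` a contraction. -/
theorem scale_cs (L : H → H) (hsub : ∀ u w, L (u - w) = L u - L w)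
    (hsmul : ∀ (t : ℝ) u, L (t • u) = t • L u) (hn : ∀ u, ‖L u‖ ≤ ‖u‖) (a b : H) :
    (⟪a, b⟫ - ⟪L a, L b⟫) ^ 2 ≤ (‖a‖ ^ 2 - ‖L a‖ ^ 2) * (‖b‖ ^ 2 - ‖L b‖ ^ 2) := by
  have key : ∀ t : ℝ, 0 ≤ (‖b‖ ^ 2 - ‖L b‖ ^ 2) * (t * t) + (-2 * (⟪a, b⟫ - ⟪L a, L b⟫)) * t +
      (‖a‖ ^ 2 - ‖L a‖ ^ 2) := by
    intro t
    have h1 := hn (a - t • b)
    have h2 : ‖L (a - t • b)‖ ^ 2 ≤ ‖a - t • b‖ ^ 2 := by gcongr
    rw [hsub, hsmul, @norm_sub_sq_real, @norm_sub_sq_real, norm_smul, norm_smul,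
      inner_smul_right, inner_smul_right, mul_pow, mul_pow, Real.norm_eq_abs, sq_abs] at h2
    nlinarith [h2]
  have h := discrim_le_zero key
  rw [discrim] at h
  nlinarith [h]

/-- The analytic core of the selection of a scale. -/
theorem scale_core (S S1 S2 : H → H)
    (hS : ∀ u w, S (u - w) = S u - S w) (h2sub : ∀ u w, S2 (u - w) = S2 u - S2 w)
    (h2smul : ∀ (t : ℝ) u, S2 (t • u) = t • S2 u)
    (nS : ∀ u, ‖S u‖ ≤ ‖u‖) (nS1 : ∀ u, ‖S1 u‖ ≤ ‖u‖) (nS2 : ∀ u, ‖S2 u‖ ≤ ‖u‖)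
    (i1 : ∀ u w, ⟪S1 u, w⟫ = ⟪u, S1 w⟫)
    (i2 : ∀ u w, ⟪S2 u, w⟫ = ⟪u, S2 w⟫) (comm : ∀ u, S (S1 u) = S1 (S u))
    (u : H) (η : ℝ) (hη : 0 ≤ η)
    (h1 : ∀ w, ‖S (w - S1 w)‖ ≤ η * ‖w‖) (h2 : ∀ w, ‖S2 (w - S w)‖ ≤ η * ‖w‖)
    (h3 : ∀ w, ‖S2 (w - S1 w)‖ ≤ η * ‖w‖) (hq : ‖S1 u‖ ^ 2 - ‖S2 u‖ ^ 2 ≤ η * ‖u‖ ^ 2) :
    |⟪S u, u⟫ - ‖S2 u‖ ^ 2| ≤ (5 * η + √(3 * η)) * ‖u‖ ^ 2 ∧
      |⟪S u, S2 (S2 u)⟫ - ‖S2 u‖ ^ 2| ≤ η * ‖u‖ ^ 2 := by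
  have hu : 0 ≤ ‖u‖ := norm_nonneg u
  -- inner product with an error term
  have hin : ∀ a b : H, ∀ A B : ℝ, ‖a‖ ≤ A → ‖b‖ ≤ B → |⟪a, b⟫| ≤ A * B := by
    intro a b A B ha hb
    exact (abs_real_inner_le_norm a b).trans (mul_le_mul ha hb (norm_nonneg _)
      ((norm_nonneg _).trans ha))
  constructor
  · set h := S1 u with hh
    have hnh : ‖h‖ ≤ ‖u‖ := nS1 u
    -- step 1
    have e1 : S u = S (u - h) + (S (h - S1 h) + S1 (S h)) := by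
      rw [hS, hS, ← comm]; abel
    have e2 : ⟪S u, u⟫ = ⟪S (u - h), u⟫ + (⟪S (h - S1 h), u⟫ + ⟪S h, h⟫) := by
      conv_lhs => rw [e1]
      rw [inner_add_left, inner_add_left, i1]
    have b1 : |⟪S (u - h), u⟫| ≤ η * ‖u‖ * ‖u‖ := hin _ _ _ _ (h1 u) le_rfl
    have b2 : |⟪S (h - S1 h), u⟫| ≤ η * ‖u‖ * ‖u‖ :=
      hin _ _ _ _ ((h1 h).trans (mul_le_mul_of_nonneg_left hnh hη)) le_rfl
    -- step 2
    have e3 : ⟪S2 (S h), S2 h⟫ = ‖S2 h‖ ^ 2 - ⟪S2 (h - S h), S2 h⟫ := by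
      rw [h2sub, inner_sub_left, real_inner_self_eq_norm_sq]; ring
    have b3 : |⟪S2 (h - S h), S2 h⟫| ≤ η * ‖u‖ * ‖u‖ :=
      hin _ _ _ _ ((h2 h).trans (mul_le_mul_of_nonneg_left hnh hη)) ((nS2 h).trans hnh)
    -- step 3
    have c0 : ‖S2 (u - h)‖ ≤ η * ‖u‖ := h3 u
    rw [h2sub] at c0
    have c1 : |‖S2 u‖ - ‖S2 h‖| ≤ η * ‖u‖ := (abs_norm_sub_norm_le _ _).trans c0
    have c2 : ‖S2 u‖ ≤ ‖u‖ := nS2 u
    have c3 : ‖S2 h‖ ≤ ‖u‖ := (nS2 h).trans hnh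
    have c4 : |‖S2 u‖ ^ 2 - ‖S2 h‖ ^ 2| ≤ 2 * η * ‖u‖ ^ 2 := by
      have : ‖S2 u‖ ^ 2 - ‖S2 h‖ ^ 2 = (‖S2 u‖ - ‖S2 h‖) * (‖S2 u‖ + ‖S2 h‖) := by ring
      rw [this, abs_mul, abs_of_nonneg (add_nonneg (norm_nonneg _) (norm_nonneg (S2 h)))]
      have := mul_le_mul c1 (add_le_add c2 c3)
        (add_nonneg (norm_nonneg _) (norm_nonneg _)) (mul_nonneg hη hu)
      nlinarith [this]
    -- step 4
    have d1 := scale_cs S2 h2sub h2smul nS2 (S h) h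
    have d2 : ‖S h‖ ^ 2 - ‖S2 (S h)‖ ^ 2 ≤ ‖u‖ ^ 2 := by
      have : ‖S h‖ ^ 2 ≤ ‖u‖ ^ 2 := by
        have := (nS h).trans hnh
        gcongr
      nlinarith [sq_nonneg ‖S2 (S h)‖]
    have d3 : ‖h‖ ^ 2 - ‖S2 h‖ ^ 2 ≤ 3 * η * ‖u‖ ^ 2 := by
      have := (abs_le.1 c4).2
      nlinarith
    have d4 : 0 ≤ ‖h‖ ^ 2 - ‖S2 h‖ ^ 2 := by
      have := nS2 h
      have : ‖S2 h‖ ^ 2 ≤ ‖h‖ ^ 2 := by gcongr
      linarith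
    have d5 : (⟪S h, h⟫ - ⟪S2 (S h), S2 h⟫) ^ 2 ≤ (√(3 * η) * ‖u‖ ^ 2) ^ 2 := by
      rw [mul_pow, Real.sq_sqrt (by positivity)]
      refine d1.trans ((mul_le_mul d2 d3 d4 (by positivity)).trans (le_of_eq (by ring)))
    have d6 : |⟪S h, h⟫ - ⟪S2 (S h), S2 h⟫| ≤ √(3 * η) * ‖u‖ ^ 2 :=
      abs_le_of_sq_le_sq d5 (by positivity)
    -- total
    rw [abs_le] at b1 b2 b3 c4 d6 ⊢
    rw [e2]
    constructor
    · nlinarith [b1.1, b2.1, b3.2, c4.2, d6.1, e3]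
    · nlinarith [b1.2, b2.2, b3.1, c4.1, d6.2, e3]
  · have e1 : ⟪S u, S2 (S2 u)⟫ = ‖S2 u‖ ^ 2 - ⟪S2 (u - S u), S2 u⟫ := by
      rw [← i2, h2sub, inner_sub_left, real_inner_self_eq_norm_sq]; ring
    have b := hin _ _ _ _ (h2 u) (nS2 u)
    rw [e1, abs_le] at *
    constructor
    · nlinarith [b.2]
    · nlinarith [b.1]

end

theorem TransRep.S_smul' {H : Type} [NormedAddCommGroup H] [InnerProductSpace ℝ H]
    [CompleteSpace H] (T : TransRep d H) (c : E d) (t : ℝ) (u : H) :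
    T.S c (t • u) = t • T.S c u := by
  unfold TransRep.S
  simp only [map_smul]
  rw [integral_smul]

/-- pigeonhole -/
theorem scale_pigeon (q : ℕ → ℝ) (η V : ℝ) (hη : 0 < η) (hV : 0 ≤ V) (hq0 : ∀ j, 0 ≤ q j)
    (hqV : ∀ j, q j ≤ V) (J : ℕ) (hJ : 1 ≤ J) (hJη : 1 ≤ J * η) :
    ∃ j < J, q j - q (j + 1) ≤ η * V := by
  by_contra hcon
  push Not at hcon
  have h : ∀ n ≤ J, (n : ℝ) * (η * V) ≤ q 0 - q n := by
    intro n hn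
    induction n with
    | zero => simp
    | succ n ih =>
      have h1 := ih (by omega)
      have h2 := hcon n (by omega)
      push_cast
      nlinarith
  have h1 := h (J - 1) (by omega)
  have h2 := hcon (J - 1) (by omega)
  rw [show J - 1 + 1 = J by omega] at h2
  have h3 : ((J - 1 : ℕ) : ℝ) = (J : ℝ) - 1 := by
    push_cast [hJ]; ring
  rw [h3] at h1
  have h4 := hq0 J
  have h5 := hqV 0
  nlinarith [mul_le_mul_of_nonneg_right hJη hV]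

end Pool.Agent.H16.Simp
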